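import Mathlib

/-!
# Definitions for MP_f10232: terms, linear rules, rewriting and codes
-/

namespace Pool.Agent.Helper73.LR

/-- First-order terms over the function symbols `F` with arities `ar` and the variables `V`. -/
inductive Tm (F : Type) (ar : F → ℕ) (V : Type) : Type
  | var : V → Tm F ar V
  | app : (f : F) → (Fin (ar f) → Tm F ar V) → Tm F ar V

namespace Tm

variable {F : Type} {ar : F → ℕ} {V W : Type}

/-- Application of a substitution to a term. -/
def subst (σ : W → Tm F ar V) : Tm F ar W → Tm F ar V
  | var x => σ x
  | app f ts => app f fun i => (ts i).subst σ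

/-- The number of occurrences of the variable `x` in a term. -/
def occ [DecidableEq V] (x : V) : Tm F ar V → ℕ
  | var y => if y = x then 1 else 0
  | app _ ts => ∑ i, (ts i).occ x

/-- A term is linear if no variable occurs more than once in it. -/
def Linear [DecidableEq V] (t : Tm F ar V) : Prop := ∀ x, t.occ x ≤ 1

/-- The code of a term in prefix form: a variable `x` is coded by `0` and its number, an
application of the symbol `f` by `1`, the number of `f` and the codes of the arguments. -/
def code (num : F → ℕ) (vnum : V → ℕ) : Tm F ar V → List ℕ
  | var x => [0, vnum x]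
  | app f ts => 1 :: num f :: (List.ofFn fun i => (ts i).code num vnum).flatten

end Tm

open Tm

variable {F : Type} {ar : F → ℕ} {V W : Type}

/-- The one-step rewrite relation of the rule `l → r`: an instance of `l`, at any position, is
replaced by the corresponding instance of `r`. -/
inductive Step (l r : Tm F ar W) : Tm F ar V → Tm F ar V → Prop
  | root (σ : W → Tm F ar V) : Step l r (l.subst σ) (r.subst σ)
  | arg (f : F) (ts : Fin (ar f) → Tm F ar V) (i : Fin (ar f)) (u : Tm F ar V)
      (h : Step l r (ts i) u) : Step l r (app f ts) (app f (Function.update ts i u))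

/-- `l → r` is a rewrite rule: `l` is not a variable and every variable of `r` occurs in `l`. -/
def IsRule (l r : Tm F ar ℕ) : Prop :=
  (∀ x, l ≠ var x) ∧ ∀ x, 0 < r.occ x → 0 < l.occ x

/-- The rule `l → r` is terminating: there is no infinite rewrite sequence of terms. -/
def Terminating (l r : Tm F ar ℕ) : Prop :=
  ¬ ∃ t : ℕ → Tm F ar ℕ, ∀ n, Step l r (t n) (t (n + 1))

/-- The input for a rule over the signature with `m` symbols of arities `ar`: the list of the
arities and the codes of both sides. -/
def input {m : ℕ} {ar : Fin m → ℕ} (l r : Tm (Fin m) ar ℕ) : List ℕ × List ℕ × List ℕ :=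
  (List.ofFn ar, l.code Fin.val id, r.code Fin.val id)

end Pool.Agent.Helper73.LR
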