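import Pool.Agent.Helper73.LR.Transfer

/-!
# Undecidability of termination of one linear rule
-/

namespace Pool.Agent.Helper73.LR

open Tm Relation Turing Pool.Agent.Helper79.Pcp

/-! ### the codes are computable -/

section

variable {F : Type} {ar : F → ℕ} {V W : Type} (num : F → ℕ) (vnum : V → ℕ)

theorem primrec_app (f : F) (ts : ℕ → Fin (ar f) → Tm F ar V)
    (h : ∀ i, Primrec fun k => (ts k i).code num vnum) :
    Primrec fun k => (app f (ts k)).code num vnum := by
  simp only [Tm.code]
  refine Primrec.list_cons.comp (Primrec.const _) (Primrec.list_cons.comp (Primrec.const _) ?_)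
  exact Primrec.list_flatten.comp (Primrec.list_ofFn h)

end

section

variable {n : ℕ} {D : Type} {arD : D → ℕ} {U V W : Type} (num : Sy D → ℕ) (vnum : V → ℕ)
  {l : Fin n → Tm D arD U}

theorem primrec_Nn (x : ℕ → Tm (Sy D) (arS n arD) V) (hx : Primrec fun k => (x k).code num vnum)
    (m : ℕ) : Primrec fun k => (Nn l m (x k)).code num vnum := by
  induction m with
  | zero => exact hx
  | succ m ih =>
    refine primrec_app (ar := arS n arD) num vnum (.f : Sy D) _ fun i => ?_
    by_cases h : i.val = m
    · simp only [h, if_true]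
      exact ih
    · simp only [h, if_false]
      exact Primrec.const _

end

section

variable {Λ Γ : Type} [Inhabited Λ] [Inhabited Γ] (M : TM0.Machine Γ Λ) (a0 : Γ)
variable {n : ℕ} {V : Type} (num : Sy (DS Λ Γ) → ℕ) (vnum : V → ℕ)

theorem code_eword (w : List Γ) : (eword w : ET Λ Γ n V).code num vnum =
    (w.map fun a => num (.dat (.lt a))).flatMap (fun k => [1, k]) ++
      (ee : ET Λ Γ n V).code num vnum := by
  induction w with
  | nil => rfl
  | cons a w ih =>
    simp only [eword, elt, Tm.code, List.map_cons, List.flatMap_cons, List.cons_append,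
      List.nil_append]
    congr 2
    rw [← ih]
    have h : (List.ofFn fun i : Fin (arS n (arD (Λ := Λ) (Γ := Γ)) (.dat (.lt a))) =>
        ((![eword w] : Fin 1 → ET Λ Γ n V) i).code num vnum) =
        [(eword w : ET Λ Γ n V).code num vnum] := by
      exact List.ofFn_succ (n := 0) (f := fun i : Fin 1 =>
        ((![eword w] : Fin 1 → ET Λ Γ n V) i).code num vnum)
    rw [h]
    simp

variable (w : ℕ → List Γ) (hw : ∀ ψ : Γ → ℕ, Primrec fun k => (w k).map ψ)

include hw in
theorem primrec_eword : Primrec fun k => (eword (w k) : ET Λ Γ n V).code num vnum := by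
  simp only [code_eword]
  refine Primrec.list_append.comp ?_ (Primrec.const _)
  refine Primrec.list_flatMap (hw _) ?_
  exact Primrec.list_cons.comp (Primrec.const 1) (Primrec.list_cons.comp Primrec.snd
    (Primrec.const []))

include hw in
theorem primrec_rule (σ : Fin 4 → ET Λ Γ n V) (i : RI Λ Γ) :
    Primrec fun k => (emb σ (rh M a0 (w k) i)).code num vnum := by
  cases i with
  | stp q a o => exact Primrec.const (Tm.code num vnum (emb σ (rh M a0 [] (.stp q a o))))
  | tout q a => exact Primrec.const (Tm.code num vnum (emb σ (rh M a0 [] (.tout q a))))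
  | go =>
    simp only [rh, emb_st, emb_e, emb_word, emb_var, emb_s, emb_z]
    refine primrec_app (ar := arS n arD) num vnum
      (.dat (.st default a0) : Sy (DS Λ Γ)) _ fun i => ?_
    change Fin 4 at i
    fin_cases i
    · exact Primrec.const (Tm.code num vnum (ee : ET Λ Γ n V))
    · exact primrec_eword num vnum w hw
    · exact Primrec.const (Tm.code num vnum (σ 3))
    · exact Primrec.const (Tm.code num vnum (es (es ez) : ET Λ Γ n V))

include hw in
theorem primrec_Rhs (l : Fin n → Tm (DS Λ Γ) arD (Fin 4)) (e : Fin n → RI Λ Γ)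
    (vnum : PV n (Fin 4) → ℕ) :
    Primrec fun k => (Rhs l fun i => rh M a0 (w k) (e i)).code num vnum := by
  unfold Rhs
  refine primrec_app (ar := arS n arD) num vnum (.g : Sy (DS Λ Γ)) _ fun i => ?_
  exact primrec_Nn num vnum _ (primrec_rule M a0 num vnum w hw _ (e i)) n

end

/-! ### linearity of the rules of a machine -/

section

variable {Λ Γ : Type} [Inhabited Λ] [Inhabited Γ] (M : TM0.Machine Γ Λ) (a0 : Γ) (w : List Γ)

theorem cnt_dst {q : Λ} {a : Γ} {u v x y : Tm (DS Λ Γ) arD (Fin 4)} {t : Fin 4} :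
    (dst q a u v x y).occ t = u.occ t + v.occ t + x.occ t + y.occ t :=
  Fin.sum_univ_four fun i : Fin 4 => Tm.occ t ((![u, v, x, y] : Fin 4 → _) i)

theorem cnt_dlt {a : Γ} {u : Tm (DS Λ Γ) arD (Fin 4)} {t : Fin 4} :
    (dlt a u).occ t = u.occ t :=
  Fin.sum_univ_one fun i : Fin 1 => Tm.occ t ((![u] : Fin 1 → _) i)

theorem cnt_ds {u : Tm (DS Λ Γ) arD (Fin 4)} {t : Fin 4} : (ds u).occ t = u.occ t :=
  Fin.sum_univ_one fun i : Fin 1 => Tm.occ t ((![u] : Fin 1 → _) i)

theorem cnt_drs {u : Tm (DS Λ Γ) arD (Fin 4)} {t : Fin 4} : (drs u).occ t = u.occ t :=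
  Fin.sum_univ_one fun i : Fin 1 => Tm.occ t ((![u] : Fin 1 → _) i)

theorem cnt_de {t : Fin 4} : (de : Tm (DS Λ Γ) arD (Fin 4)).occ t = 0 := rfl

theorem cnt_dz {t : Fin 4} : (dz : Tm (DS Λ Γ) arD (Fin 4)).occ t = 0 := rfl

theorem cnt_var {t u : Fin 4} : (var u : Tm (DS Λ Γ) arD (Fin 4)).occ t = if u = t then 1 else 0 :=
  rfl

theorem cnt_dword {t : Fin 4} : (dword w : Tm (DS Λ Γ) arD (Fin 4)).occ t = 0 := by
  induction w with
  | nil => rfl
  | cons a w ih => rw [dword, cnt_dlt, ih]

theorem lh_linear (i : RI Λ Γ) : (lh M i).Linear := by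
  intro t
  cases i with
  | stp q a o =>
    simp only [lh]
    rcases hM : M q a with _ | ⟨q', (_ | _) | b⟩ <;> rcases o with _ | o <;>
      simp only [cnt_dst, cnt_dlt, cnt_de, cnt_ds, cnt_dz, cnt_var] <;>
      revert t <;> decide
  | tout q a =>
    simp only [lh, cnt_dst, cnt_dz, cnt_var]
    revert t
    decide
  | go =>
    simp only [lh, cnt_drs, cnt_ds, cnt_var]
    revert t
    decide

theorem rh_linear (i : RI Λ Γ) : (rh M a0 w i).Linear := by
  intro t
  cases i with
  | stp q a o =>
    simp only [rh]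
    rcases hM : M q a with _ | ⟨q', (_ | _) | b⟩ <;> rcases o with _ | o <;>
      simp only [cnt_dst, cnt_dlt, cnt_de, cnt_ds, cnt_var] <;>
      revert t <;> decide
  | tout q a =>
    simp only [rh, cnt_drs, cnt_var]
    revert t
    decide
  | go =>
    simp only [rh, cnt_dst, cnt_de, cnt_dword, cnt_ds, cnt_dz, cnt_var]
    revert t
    decide

end

/-! ### finiteness -/

/-- Auxiliary injection. -/
def RI.inj {Λ Γ : Type} : RI Λ Γ → (Λ × Γ × Option Γ) ⊕ (Λ × Γ) ⊕ Unit
  | .stp q a o => .inl (q, a, o)
  | .tout q a => .inr (.inl (q, a))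
  | .go => .inr (.inr ())

instance {Λ Γ : Type} [Finite Λ] [Finite Γ] : Finite (RI Λ Γ) :=
  Finite.of_injective RI.inj (by
    intro x y h
    cases x <;> cases y <;> simp [RI.inj] at h <;> simp [h])

/-- Auxiliary injection. -/
def DS.inj {Λ Γ : Type} : DS Λ Γ → (Λ × Γ) ⊕ Γ ⊕ Fin 4
  | .st q a => .inl (q, a)
  | .lt a => .inr (.inl a)
  | .e => .inr (.inr 0)
  | .s => .inr (.inr 1)
  | .z => .inr (.inr 2)
  | .rs => .inr (.inr 3)

instance {Λ Γ : Type} [Finite Λ] [Finite Γ] : Finite (DS Λ Γ) :=
  Finite.of_injective DS.inj (by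
    intro x y h
    cases x <;> cases y <;> simp [DS.inj] at h <;> simp [h])

/-- Auxiliary injection. -/
def Sy.inj {D : Type} : Sy D → D ⊕ Fin 3
  | .dat d => .inl d
  | .f => .inr 0
  | .g => .inr 1
  | .c => .inr 2

instance {D : Type} [Finite D] : Finite (Sy D) :=
  Finite.of_injective Sy.inj (by
    intro x y h
    cases x <;> cases y <;> simp [Sy.inj] at h <;> simp [h])

/-- Auxiliary injection. -/
def PV.inj {n : ℕ} {U : Type} : PV n U → (Fin n × U) ⊕ (ℕ × ℕ × ℕ)
  | .rul i u => .inl (i, u)
  | .wild a b c => .inr (a, b, c)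

instance {n : ℕ} {U : Type} [Countable U] : Countable (PV n U) :=
  Function.Injective.countable (f := PV.inj) (by
    intro x y h
    cases x <;> cases y <;> simp [PV.inj] at h <;> simp [h])

/-! ### the result -/

/-- Codes of terms are faithful. -/
theorem code_append_inj {m : ℕ} {ar : Fin m → ℕ} (t : Tm (Fin m) ar ℕ) :
    ∀ (u : Tm (Fin m) ar ℕ) (a b : List ℕ),
      t.code Fin.val id ++ a = u.code Fin.val id ++ b → t = u ∧ a = b := by
  induction t with
  | var x =>
    intro u a b h
    cases u with
    | var y =>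
      simp only [Tm.code, List.cons_append, List.nil_append, List.cons.injEq, true_and] at h
      exact ⟨by rw [show x = y from h.1], h.2⟩
    | app g us => simp [Tm.code] at h
  | app f ts ih =>
    intro u a b h
    cases u with
    | var y => simp [Tm.code] at h
    | app g us =>
      simp only [Tm.code, List.cons_append, List.cons.injEq, true_and] at h
      obtain ⟨h1, h2⟩ := h
      have hfg : f = g := Fin.ext h1
      subst hfg
      have key : ∀ (k : ℕ) (ts us : Fin k → Tm (Fin m) ar ℕ),
          (∀ i, ∀ (u : Tm (Fin m) ar ℕ) (a b : List ℕ),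
            (ts i).code Fin.val id ++ a = u.code Fin.val id ++ b → ts i = u ∧ a = b) →
          (List.ofFn fun i => (ts i).code Fin.val id).flatten ++ a =
            (List.ofFn fun i => (us i).code Fin.val id).flatten ++ b → ts = us ∧ a = b := by
        intro k
        induction k with
        | zero =>
          intro ts us _ h
          exact ⟨funext fun i => i.elim0, by simpa using h⟩
        | succ k ihk =>
          intro ts us hts h
          rw [List.ofFn_succ, List.ofFn_succ, List.flatten_cons, List.flatten_cons,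
            List.append_assoc, List.append_assoc] at h
          obtain ⟨h3, h4⟩ := hts 0 _ _ _ h
          obtain ⟨h5, h6⟩ := ihk (fun i => ts i.succ) (fun i => us i.succ)
            (fun i => hts i.succ) h4
          refine ⟨?_, h6⟩
          funext i
          refine Fin.cases h3 (fun j => ?_) i
          exact congrFun h5 j
      obtain ⟨h3, h4⟩ := key _ ts us ih h2
      exact ⟨by rw [h3], h4⟩

/-- The code of a rule determines the rule. -/
theorem input_injective {m : ℕ} {ar : Fin m → ℕ} {l r l' r' : Tm (Fin m) ar ℕ}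
    (h : input l r = input l' r') : l = l' ∧ r = r' := by
  unfold input at h
  simp only [Prod.mk.injEq, true_and] at h
  exact ⟨(code_append_inj l l' [] [] (by simpa using h.1)).1,
    (code_append_inj r r' [] [] (by simpa using h.2)).1⟩

attribute [local instance] Classical.propDecidable

/-- There is a fixed left-hand side and a computable sequence of right-hand sides for which
termination is undecidable. -/
theorem exists_family : ∃ (m : ℕ) (ar : Fin m → ℕ) (l : Tm (Fin m) ar ℕ)
    (r : ℕ → Tm (Fin m) ar ℕ),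
    (∀ k, IsRule l (r k)) ∧ (@Tm.Linear _ _ _ instDecidableEqNat l) ∧
    (∀ k, @Tm.Linear _ _ _ instDecidableEqNat (r k)) ∧
    (Computable fun k => input l (r k)) ∧
    ¬ ComputablePred fun k => Terminating l (r k) := by
  obtain ⟨Λ0, hfin, hinh, N, hN⟩ := stage3
  let a0 : G0 := inpL true PartrecToTM2.Γ'.cons
  let w : ℕ → List G0 := fun k => ((PartrecToTM2.trNat k).map (inpL false)).reverse
  obtain ⟨n, ⟨e'⟩⟩ := Finite.exists_equiv_fin (RI Λ0 G0)
  let e : Fin n ≃ RI Λ0 G0 := e'.symm
  have hn : 2 ≤ n := by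
    by_contra hn
    have h1 : e' (.tout default default) = e' .go := Fin.ext (by
      have := (e' (.tout default default)).2
      have := (e' .go).2
      omega)
    have h2 := e'.injective h1
    cases h2
  obtain ⟨m, ⟨ψ⟩⟩ := Finite.exists_equiv_fin (Sy (DS Λ0 G0))
  obtain ⟨ι, hι⟩ := Countable.exists_injective_nat (PV n (Fin 4))
  let ar : Fin m → ℕ := fun j => arS n arD (ψ.symm j)
  have hψ : ∀ f, ar (ψ f) = arS n arD f := fun f => by simp [ar]
  have hψ' : ∀ j, arS n arD (ψ.symm j) = ar j := fun j => rfl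
  let lf : Fin n → Tm (DS Λ0 G0) arD (Fin 4) := fun i => lh N (e i)
  let rf : ℕ → Fin n → Tm (DS Λ0 G0) arD (Fin 4) := fun k i => rh N a0 (w k) (e i)
  have hgood : ∀ k, Good lf (rf k) := fun k => rules_good N a0 (w k) e hn
  refine ⟨m, ar, ren ι (mapS ψ hψ (Lhs lf)), fun k => ren ι (mapS ψ hψ (Rhs lf (rf k))),
    ?_, ?_, ?_, ?_, ?_⟩
  · intro k
    constructor
    · intro x
      refine ren_ne_var (fun y => mapS_ne_var (fun z => ?_) y) x
      simp [Lhs]
    · intro x hx
      by_cases hy : ∃ y, ι y = x
      · obtain ⟨y, rfl⟩ := hy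
        rw [ren_occ hι, mapS_occ, occ_pos_iff] at hx ⊢
        exact rule_Lhs_Rhs (hgood k) hx
      · simp only [not_exists] at hy
        rw [ren_occ' hy] at hx
        exact absurd hx (lt_irrefl _)
  · refine ren_linear hι fun x => ?_
    rw [mapS_occ]
    exact linear_Lhs (fun i => lh_linear N (e i)) x
  · intro k
    refine ren_linear hι fun x => ?_
    rw [mapS_occ]
    exact linear_Rhs (fun i => rh_linear N a0 (w k) (e i)) x
  · have hw : ∀ φ : G0 → ℕ, Primrec fun k => (w k).map φ := by
      intro φ
      have h1 := Primrec.list_reverse.comp (primrec_trNat fun a => φ (inpL false a))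
      refine h1.of_eq fun k => ?_
      simp [w, Function.comp_def]
    have h2 := primrec_Rhs N a0 (fun f => (ψ f).val) w hw lf e (fun x => id (ι x))
    refine (Primrec.pair (Primrec.const _) (Primrec.pair (Primrec.const _) ?_)).to_comp
    refine h2.of_eq fun k => ?_
    rw [ren_code, mapS_code]
  · intro hcon
    apply hN
    have key : ∀ k, Terminating (ren ι (mapS ψ hψ (Lhs lf))) (ren ι (mapS ψ hψ (Rhs lf (rf k)))) ↔
        (StateTransition.eval (TM0.step N) (TM0.init (TM2to1.trInit PartrecToTM2.K'.main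
          (PartrecToTM2.trList [k])))).Dom := by
      intro k
      rw [terminating_iff]
      have h1 : (∀ t : Tm (Fin m) ar ℕ, SN (ren ι (mapS ψ hψ (Lhs lf)))
          (ren ι (mapS ψ hψ (Rhs lf (rf k)))) t) ↔
          ∀ t : Tm (Fin m) ar ℕ, SN (mapS ψ hψ (Lhs lf)) (mapS ψ hψ (Rhs lf (rf k))) t := by
        have : Nonempty (Tm (Fin m) ar ℕ) := ⟨.var 0⟩
        unfold SN
        simp only [ren_step hι]
      have h2 : (∀ t : Tm (Fin m) ar ℕ, SN (mapS ψ hψ (Lhs lf))
          (mapS ψ hψ (Rhs lf (rf k))) t) ↔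
          ∀ t : ET Λ0 G0 n ℕ, SN (Lhs lf) (Rhs lf (rf k)) t := by
        constructor
        · exact sn_of_mapS _ _
        · intro h
          refine sn_of_mapS (φ := ψ.symm) (hφ := hψ') _ _ ?_
          rw [mapS_mapS (fun f => ψ.symm_apply_apply f), mapS_mapS
            (fun f => ψ.symm_apply_apply f)]
          exact h
      rw [h1, h2]
      have h3 := sn_iff_halts (V := ℕ) N a0 (w k) e hn
      have h4 := dom_iff N (c0 a0 (w k))
      have h5 : TM2to1.trInit PartrecToTM2.K'.main (PartrecToTM2.trList [k]) = a0 :: w k :=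
        inp_eq k
      rw [h5]
      exact h3.trans h4.symm
    obtain ⟨f, hf1, hf2⟩ := ComputablePred.computable_iff.1 hcon
    refine ComputablePred.computable_iff.2 ⟨f, hf1, ?_⟩
    funext k
    rw [← propext (key k)]
    exact congrFun hf2 k

end Pool.Agent.Helper73.LR
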