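import Pool.Agent.Helper73.LR.Mach
import Pool.Agent.Helper79.PcpFinal

/-!
# Halting of machines, and the assumptions on the rules
-/

namespace Pool.Agent.Helper73.LR

open Tm Relation Turing Pool.Agent.Helper79.Pcp

section

variable {Λ Γ : Type} [Inhabited Λ] [Inhabited Γ] (M : TM0.Machine Γ Λ)

/-- The configuration of the Turing machine. -/
def toCfg (c : LC Λ Γ) : TM0.Cfg Γ Λ := ⟨c.1, tp c.2.1 c.2.2.1 c.2.2.2⟩

theorem lstep_spec (c : LC Λ Γ) : TM0.step M (toCfg c) = (lstep M c).map toCfg := by
  obtain ⟨q, L, a, R⟩ := c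
  unfold TM0.step toCfg lstep
  simp only [tp]
  rcases hM : M q a with _ | ⟨q', (_ | _) | b⟩
  · rfl
  · cases L with
    | nil => rfl
    | cons b L => rfl
  · cases R with
    | nil => rfl
    | cons b R => rfl
  · rfl

theorem dom_iff (c : LC Λ Γ) :
    (StateTransition.eval (TM0.step M) (toCfg c)).Dom ↔ ∃ K, H M K c := by
  constructor
  · intro h
    obtain ⟨b, hb⟩ := Part.dom_iff_mem.1 h
    obtain ⟨h1, h2⟩ := StateTransition.mem_eval.1 hb
    have key : ∀ x, StateTransition.Reaches (TM0.step M) x b → ∀ c, x = toCfg c →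
        ∃ K, H M K c := by
      intro x hx
      induction hx using ReflTransGen.head_induction_on with
      | refl =>
        intro c hc
        refine ⟨0, ?_⟩
        have h3 := lstep_spec M c
        rw [← hc, h2] at h3
        cases h4 : lstep M c with
        | none => exact h4
        | some c' => rw [h4] at h3; simp at h3
      | head hs _ ih =>
        intro c hc
        have h3 := lstep_spec M c
        rw [← hc] at h3
        have hs' := Option.mem_def.1 hs
        rw [hs'] at h3
        cases h4 : lstep M c with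
        | none => rw [h4] at h3; simp at h3
        | some c' =>
          rw [h4, Option.map_some, Option.some.injEq] at h3
          obtain ⟨K, hK⟩ := ih c' h3
          exact ⟨K + 1, c', h4, hK⟩
    exact key _ h1 c rfl
  · rintro ⟨K, hK⟩
    induction K generalizing c with
    | zero =>
      have h3 := lstep_spec M c
      have h4 : lstep M c = none := hK
      rw [h4] at h3
      exact Part.dom_iff_mem.2 ⟨_, StateTransition.mem_eval.2 ⟨.refl, h3⟩⟩
    | succ K ih =>
      obtain ⟨c', h1, h2⟩ := hK
      have h3 := lstep_spec M c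
      rw [h1] at h3
      rw [StateTransition.reaches_eval (ReflTransGen.single (Option.mem_def.2 h3))]
      exact ih c' h2

/-! ### the rules are good -/

variable {U : Type}

theorem occ_dst {q : Λ} {a : Γ} {u v x y : Tm (DS Λ Γ) arD U} {t : U} :
    Occ t (dst q a u v x y) ↔ Occ t u ∨ Occ t v ∨ Occ t x ∨ Occ t y := by
  constructor
  · intro h
    cases h with
    | app _ _ i h =>
      change Fin 4 at i
      fin_cases i
      · exact Or.inl h
      · exact Or.inr (Or.inl h)
      · exact Or.inr (Or.inr (Or.inl h))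
      · exact Or.inr (Or.inr (Or.inr h))
  · rintro (h | h | h | h)
    · exact Occ.app (.st q a : DS Λ Γ) _ (0 : Fin 4) h
    · exact Occ.app (.st q a : DS Λ Γ) _ (1 : Fin 4) h
    · exact Occ.app (.st q a : DS Λ Γ) _ (2 : Fin 4) h
    · exact Occ.app (.st q a : DS Λ Γ) _ (3 : Fin 4) h

theorem occ_dlt {a : Γ} {u : Tm (DS Λ Γ) arD U} {t : U} : Occ t (dlt a u) ↔ Occ t u := by
  constructor
  · intro h
    cases h with
    | app _ _ i h =>
      change Fin 1 at i
      fin_cases i
      exact h
  · intro h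
    exact Occ.app (.lt a : DS Λ Γ) _ (0 : Fin 1) h

theorem occ_ds {u : Tm (DS Λ Γ) arD U} {t : U} : Occ t (ds u) ↔ Occ t u := by
  constructor
  · intro h
    cases h with
    | app _ _ i h =>
      change Fin 1 at i
      fin_cases i
      exact h
  · intro h
    exact Occ.app (.s : DS Λ Γ) _ (0 : Fin 1) h

theorem occ_drs {u : Tm (DS Λ Γ) arD U} {t : U} : Occ t (drs u) ↔ Occ t u := by
  constructor
  · intro h
    cases h with
    | app _ _ i h =>
      change Fin 1 at i
      fin_cases i
      exact h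
  · intro h
    exact Occ.app (.rs : DS Λ Γ) _ (0 : Fin 1) h

theorem occ_de {t : U} : Occ t (de : Tm (DS Λ Γ) arD U) ↔ False := by
  constructor
  · intro h
    cases h with
    | app _ _ i h => exact Fin.elim0 i
  · exact False.elim

theorem occ_dz {t : U} : Occ t (dz : Tm (DS Λ Γ) arD U) ↔ False := by
  constructor
  · intro h
    cases h with
    | app _ _ i h => exact Fin.elim0 i
  · exact False.elim

theorem occ_dvar {t u : U} : Occ t (var u : Tm (DS Λ Γ) arD U) ↔ t = u := by
  constructor
  · intro h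
    cases h
    rfl
  · rintro rfl
    exact .var

theorem occ_dword {t : U} (w : List Γ) : Occ t (dword w : Tm (DS Λ Γ) arD U) ↔ False := by
  induction w with
  | nil => exact occ_de
  | cons a w ih => rw [dword, occ_dlt, ih]

variable (a0 : Γ) (w : List Γ)

theorem rule_vars (i : RI Λ Γ) (u : Fin 4) (h : Occ u (rh M a0 w i)) : Occ u (lh M i) := by
  cases i with
  | stp q a o =>
    simp only [lh, rh] at h ⊢
    rcases hM : M q a with _ | ⟨q', (_ | _) | b⟩ <;> rw [hM] at h <;> rcases o with _ | o <;>
      simp only [occ_dst, occ_dlt, occ_de, occ_ds, occ_dz, occ_dvar] at h ⊢ <;> tauto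
  | tout q a =>
    simp only [lh, rh, occ_dst, occ_drs, occ_dz, occ_dvar] at h ⊢
    tauto
  | go =>
    simp only [lh, rh, occ_dst, occ_drs, occ_ds, occ_dz, occ_de, occ_dword, occ_dvar] at h ⊢
    tauto

theorem rule_nvar (i : RI Λ Γ) (u : Fin 4) : lh M i ≠ var u := by
  cases i with
  | stp q a o =>
    simp only [lh]
    rcases hM : M q a with _ | ⟨q', (_ | _) | b⟩ <;> rcases o with _ | o <;> simp [dst]
  | tout q a => simp [lh, dst]
  | go => simp [lh, drs]

variable {V : Type} {n : ℕ}

theorem rh_shape (i : RI Λ Γ) :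
    emb (fun _ => (cst : ET Λ Γ n V)) (rh M a0 w i) = ee ∨
    (∃ q a u v y, emb (fun _ => (cst : ET Λ Γ n V)) (rh M a0 w i) = est q a u v cst y) ∨
    emb (fun _ => (cst : ET Λ Γ n V)) (rh M a0 w i) = ers cst := by
  cases i with
  | stp q a o =>
    simp only [rh]
    rcases hM : M q a with _ | ⟨q', (_ | _) | b⟩ <;> rcases o with _ | o <;>
      simp only [emb_st, emb_e, emb_var]
    · exact Or.inl trivial
    · exact Or.inl trivial
    all_goals exact Or.inr (Or.inl ⟨_, _, _, _, _, rfl⟩)
  | tout q a =>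
    simp only [rh, emb_rs, emb_var]
    exact Or.inr (Or.inr trivial)
  | go =>
    simp only [rh, emb_st, emb_var]
    exact Or.inr (Or.inl ⟨_, _, _, _, _, rfl⟩)

theorem rule_inert (i j : RI Λ Γ) (σ : Fin 4 → ET Λ Γ n V) :
    emb (fun _ => cst) (rh M a0 w i) ≠ emb σ (lh M j) := by
  intro h
  have hmr : MR M a0 w (emb (fun _ => (cst : ET Λ Γ n V)) (rh M a0 w i))
    (emb σ (rh M a0 w j)) := ⟨j, σ, h, rfl⟩
  rcases rh_shape (n := n) (V := V) M a0 w i with h1 | ⟨q, a, u, v, y, h1⟩ | h1
  · rw [h1] at hmr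
    exact mr_e M a0 w hmr
  · rw [h1] at hmr
    rcases mr_st M a0 w hmr with ⟨x', h2, _⟩ | ⟨h2, _⟩
    · exact ne_of_hd (by simp [hd_cst, hd_s]) h2
    · exact ne_of_hd (by simp [hd_cst, hd_z]) h2
  · rw [h1] at hmr
    obtain ⟨y', h2, _⟩ := mr_rs M a0 w hmr
    exact ne_of_hd (by simp [hd_cst, hd_s]) h2

theorem rules_good (e : Fin n → RI Λ Γ) (hn : 2 ≤ n) :
    Good (fun i => lh M (e i)) (fun i => rh M a0 w (e i)) where
  two := hn
  nvar := fun i u => rule_nvar M (e i) u
  vars := fun i u h => rule_vars M a0 w (e i) u h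
  inert := fun _ i j σ => rule_inert M a0 w (e i) (e j) σ

/-- The one rule of a machine is terminating iff the machine halts. -/
theorem sn_iff_halts (e : Fin n ≃ RI Λ Γ) (hn : 2 ≤ n) :
    (∀ t : ET Λ Γ n V, SN (Lhs fun i => lh M (e i))
      (Rhs (fun i => lh M (e i)) fun i => rh M a0 w (e i)) t) ↔ ∃ K, H M K (c0 a0 w) := by
  have h0 : ∀ x y : ET Λ Γ n V,
      Root (fun i => lh M (e i)) (fun i => rh M a0 w (e i)) x y ↔ MR M a0 w x y := by
    intro x y
    constructor
    · rintro ⟨i, σ, h1, h2⟩
      exact ⟨e i, σ, h1, h2⟩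
    · rintro ⟨i, σ, h1, h2⟩
      exact ⟨e.symm i, σ, by simpa using h1, by simpa using h2⟩
  have h1 : (fun a b : ET Λ Γ n V => Root (fun i => lh M (e i)) (fun i => rh M a0 w (e i)) b a) =
      fun a b => MR M a0 w b a := by
    funext a b
    exact propext (h0 b a)
  constructor
  · intro h
    refine halts_of_ma (n := n) (V := V) M a0 w fun t => ?_
    have h2 := acc_root h t
    rw [h1] at h2
    exact h2
  · rintro ⟨K, hK⟩ t
    refine sn_all (rules_good M a0 w e hn) (fun x => ?_) t
    rw [h1]
    exact ma_all M a0 w K hK x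

end

end Pool.Agent.Helper73.LR
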