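import Pool.Agent.Helper73.LR.Sim

/-!
# Turing machines with a clock as linear rules applied at the root
-/

namespace Pool.Agent.Helper73.LR

open Tm Relation Turing

/-- The data symbols of a machine. -/
inductive DS (Λ Γ : Type) : Type
  | st (q : Λ) (a : Γ) : DS Λ Γ
  | lt (a : Γ) : DS Λ Γ
  | e : DS Λ Γ
  | s : DS Λ Γ
  | z : DS Λ Γ
  | rs : DS Λ Γ

/-- The arities. -/
def arD {Λ Γ : Type} : DS Λ Γ → ℕ
  | .st _ _ => 4
  | .lt _ => 1
  | .e => 0
  | .s => 1
  | .z => 0
  | .rs => 1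

section

variable {Λ Γ U V : Type} {n : ℕ}

/-! ### data terms -/

def dst (q : Λ) (a : Γ) (u v x y : Tm (DS Λ Γ) arD U) : Tm (DS Λ Γ) arD U :=
  app (.st q a : DS Λ Γ) (![u, v, x, y] : Fin 4 → _)

def dlt (a : Γ) (u : Tm (DS Λ Γ) arD U) : Tm (DS Λ Γ) arD U :=
  app (.lt a : DS Λ Γ) (![u] : Fin 1 → _)

def de : Tm (DS Λ Γ) arD U := app (.e : DS Λ Γ) (![] : Fin 0 → _)

def ds (u : Tm (DS Λ Γ) arD U) : Tm (DS Λ Γ) arD U := app (.s : DS Λ Γ) (![u] : Fin 1 → _)

def dz : Tm (DS Λ Γ) arD U := app (.z : DS Λ Γ) (![] : Fin 0 → _)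

def drs (u : Tm (DS Λ Γ) arD U) : Tm (DS Λ Γ) arD U := app (.rs : DS Λ Γ) (![u] : Fin 1 → _)

/-- The term of a word. -/
def dword : List Γ → Tm (DS Λ Γ) arD U
  | [] => de
  | a :: w => dlt a (dword w)

/-! ### embedded terms -/

/-- Terms with embedded data. -/
abbrev ET (Λ Γ : Type) (n : ℕ) (V : Type) : Type := Tm (Sy (DS Λ Γ)) (arS n arD) V

def est (q : Λ) (a : Γ) (u v x y : ET Λ Γ n V) : ET Λ Γ n V :=
  app (.dat (.st q a) : Sy (DS Λ Γ)) (![u, v, x, y] : Fin 4 → _)

def elt (a : Γ) (u : ET Λ Γ n V) : ET Λ Γ n V :=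
  app (.dat (.lt a) : Sy (DS Λ Γ)) (![u] : Fin 1 → _)

def ee : ET Λ Γ n V := app (.dat .e : Sy (DS Λ Γ)) (![] : Fin 0 → _)

def es (u : ET Λ Γ n V) : ET Λ Γ n V := app (.dat .s : Sy (DS Λ Γ)) (![u] : Fin 1 → _)

def ez : ET Λ Γ n V := app (.dat .z : Sy (DS Λ Γ)) (![] : Fin 0 → _)

def ers (u : ET Λ Γ n V) : ET Λ Γ n V := app (.dat .rs : Sy (DS Λ Γ)) (![u] : Fin 1 → _)

def eword : List Γ → ET Λ Γ n V
  | [] => ee
  | a :: w => elt a (eword w)

/-! ### embedding -/

variable (σ : U → ET Λ Γ n V)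

theorem emb_st (q : Λ) (a : Γ) (u v x y : Tm (DS Λ Γ) arD U) :
    emb σ (dst q a u v x y) = est q a (emb σ u) (emb σ v) (emb σ x) (emb σ y) := by
  simp only [dst, est, emb]
  congr 1
  funext i
  change Fin 4 at i
  fin_cases i <;> rfl

theorem emb_lt (a : Γ) (u : Tm (DS Λ Γ) arD U) : emb σ (dlt a u) = elt a (emb σ u) := by
  simp only [dlt, elt, emb]
  congr 1
  funext i
  change Fin 1 at i
  fin_cases i; rfl

theorem emb_e : emb σ (de : Tm (DS Λ Γ) arD U) = ee := by
  simp only [de, ee, emb]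
  congr 1
  funext i
  change Fin 0 at i
  exact i.elim0

theorem emb_s (u : Tm (DS Λ Γ) arD U) : emb σ (ds u) = es (emb σ u) := by
  simp only [ds, es, emb]
  congr 1
  funext i
  change Fin 1 at i
  fin_cases i; rfl

theorem emb_z : emb σ (dz : Tm (DS Λ Γ) arD U) = ez := by
  simp only [dz, ez, emb]
  congr 1
  funext i
  change Fin 0 at i
  exact i.elim0

theorem emb_rs (u : Tm (DS Λ Γ) arD U) : emb σ (drs u) = ers (emb σ u) := by
  simp only [drs, ers, emb]
  congr 1
  funext i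
  change Fin 1 at i
  fin_cases i; rfl

theorem emb_var (u : U) : emb σ (var u : Tm (DS Λ Γ) arD U) = σ u := rfl

theorem emb_word (w : List Γ) : emb σ (dword w : Tm (DS Λ Γ) arD U) = eword w := by
  induction w with
  | nil => exact emb_e σ
  | cons a w ih => simp only [dword, eword, emb_lt, ih]

/-! ### injectivity -/

theorem est_inj {q q' : Λ} {a a' : Γ} {u v x y u' v' x' y' : ET Λ Γ n V} :
    est q a u v x y = est q' a' u' v' x' y' ↔
      q = q' ∧ a = a' ∧ u = u' ∧ v = v' ∧ x = x' ∧ y = y' := by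
  constructor
  · intro h
    unfold est at h
    rw [app.injEq] at h
    obtain ⟨h1, h2⟩ := h
    simp only [Sy.dat.injEq, DS.st.injEq] at h1
    obtain ⟨rfl, rfl⟩ := h1
    have h3 := eq_of_heq h2
    exact ⟨rfl, rfl, congrFun h3 (0 : Fin 4), congrFun h3 (1 : Fin 4), congrFun h3 (2 : Fin 4),
      congrFun h3 (3 : Fin 4)⟩
  · rintro ⟨rfl, rfl, rfl, rfl, rfl, rfl⟩
    rfl

theorem elt_inj {a a' : Γ} {u u' : ET Λ Γ n V} : elt a u = elt a' u' ↔ a = a' ∧ u = u' := by
  constructor
  · intro h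
    unfold elt at h
    rw [app.injEq] at h
    obtain ⟨h1, h2⟩ := h
    simp only [Sy.dat.injEq, DS.lt.injEq] at h1
    subst h1
    have h3 := eq_of_heq h2
    exact ⟨rfl, congrFun h3 (0 : Fin 1)⟩
  · rintro ⟨rfl, rfl⟩
    rfl

theorem es_inj {u u' : ET Λ Γ n V} : es u = es u' ↔ u = u' := by
  constructor
  · intro h
    unfold es at h
    rw [app.injEq] at h
    have h3 := eq_of_heq h.2
    exact congrFun h3 (0 : Fin 1)
  · rintro rfl
    rfl

theorem ers_inj {u u' : ET Λ Γ n V} : ers u = ers u' ↔ u = u' := by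
  constructor
  · intro h
    unfold ers at h
    rw [app.injEq] at h
    have h3 := eq_of_heq h.2
    exact congrFun h3 (0 : Fin 1)
  · rintro rfl
    rfl

/-- The head of a term. -/
def hd : ET Λ Γ n V → Option (Sy (DS Λ Γ))
  | var _ => none
  | app f _ => some f

theorem hd_st (q : Λ) (a : Γ) (u v x y : ET Λ Γ n V) :
    hd (est q a u v x y) = some (.dat (.st q a)) := rfl
theorem hd_lt (a : Γ) (u : ET Λ Γ n V) : hd (elt a u) = some (.dat (.lt a)) := rfl
theorem hd_e : hd (ee : ET Λ Γ n V) = some (.dat .e) := rfl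
theorem hd_s (u : ET Λ Γ n V) : hd (es u) = some (.dat .s) := rfl
theorem hd_z : hd (ez : ET Λ Γ n V) = some (.dat .z) := rfl
theorem hd_rs (u : ET Λ Γ n V) : hd (ers u) = some (.dat .rs) := rfl
theorem hd_cst : hd (cst : ET Λ Γ n V) = some .c := rfl

theorem ne_of_hd {t u : ET Λ Γ n V} (h : hd t ≠ hd u) : t ≠ u := fun h' => h (by rw [h'])

end

/-! ### machines -/

section

variable {Λ Γ : Type} [Inhabited Λ] [Inhabited Γ]

/-- Configurations with lists. -/
abbrev LC (Λ Γ : Type) : Type := Λ × List Γ × Γ × List Γ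

/-- A step. -/
def lstep (M : TM0.Machine Γ Λ) (c : LC Λ Γ) : Option (LC Λ Γ) :=
  match M c.1 c.2.2.1 with
  | none => none
  | some (q', .write b) => some (q', c.2.1, b, c.2.2.2)
  | some (q', .move .right) =>
    match c.2.2.2 with
    | [] => some (q', c.2.2.1 :: c.2.1, default, [])
    | b :: R => some (q', c.2.2.1 :: c.2.1, b, R)
  | some (q', .move .left) =>
    match c.2.1 with
    | [] => some (q', [], default, c.2.2.1 :: c.2.2.2)
    | b :: L => some (q', L, b, c.2.2.1 :: c.2.2.2)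

/-- The machine halts after `k` steps. -/
def H (M : TM0.Machine Γ Λ) : ℕ → LC Λ Γ → Prop
  | 0, c => lstep M c = none
  | k + 1, c => ∃ c', lstep M c = some c' ∧ H M k c'

/-- The names of the rules. -/
inductive RI (Λ Γ : Type) : Type
  | stp (q : Λ) (a : Γ) (o : Option Γ) : RI Λ Γ
  | tout (q : Λ) (a : Γ) : RI Λ Γ
  | go : RI Λ Γ

variable (M : TM0.Machine Γ Λ) (a0 : Γ) (w : List Γ)

/-- The left-hand sides. -/
def lh : RI Λ Γ → Tm (DS Λ Γ) arD (Fin 4)
  | .stp q a o =>
    match M q a, o with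
    | none, _ => dst q a (var 0) (var 1) dz (var 3)
    | some (_, .write _), _ => dst q a (var 0) (var 1) (ds (var 2)) (var 3)
    | some (_, .move .right), none => dst q a (var 0) de (ds (var 2)) (var 3)
    | some (_, .move .right), some b => dst q a (var 0) (dlt b (var 1)) (ds (var 2)) (var 3)
    | some (_, .move .left), none => dst q a de (var 1) (ds (var 2)) (var 3)
    | some (_, .move .left), some b => dst q a (dlt b (var 0)) (var 1) (ds (var 2)) (var 3)
  | .tout q a => dst q a (var 0) (var 1) dz (var 3)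
  | .go => drs (ds (var 3))

/-- The right-hand sides. -/
def rh : RI Λ Γ → Tm (DS Λ Γ) arD (Fin 4)
  | .stp q a o =>
    match M q a, o with
    | none, _ => de
    | some (q', .write b), _ => dst q' b (var 0) (var 1) (var 2) (ds (var 3))
    | some (q', .move .right), none => dst q' default (dlt a (var 0)) de (var 2) (ds (var 3))
    | some (q', .move .right), some b => dst q' b (dlt a (var 0)) (var 1) (var 2) (ds (var 3))
    | some (q', .move .left), none => dst q' default de (dlt a (var 1)) (var 2) (ds (var 3))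
    | some (q', .move .left), some b => dst q' b (var 0) (dlt a (var 1)) (var 2) (ds (var 3))
  | .tout _ _ => drs (var 3)
  | .go => dst default a0 de (dword w) (var 3) (ds (ds dz))

variable {n : ℕ} {V : Type}

/-- The term of a configuration with clock `x` and spare `y`. -/
def ct (c : LC Λ Γ) (x y : ET Λ Γ n V) : ET Λ Γ n V :=
  est c.1 c.2.2.1 (eword c.2.1) (eword c.2.2.2) x y

/-- The initial configuration. -/
def c0 : LC Λ Γ := (default, [], a0, w)

/-- Root rewriting with the rules of the machine. -/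
def MR (x y : ET Λ Γ n V) : Prop :=
  ∃ (i : RI Λ Γ) (σ : Fin 4 → ET Λ Γ n V), x = emb σ (lh M i) ∧ y = emb σ (rh M a0 w i)

theorem mr_st {q : Λ} {a : Γ} {u v x y t : ET Λ Γ n V}
    (h : MR M a0 w (est q a u v x y) t) :
    (∃ x', x = es x' ∧ ∃ q' a' u' v', t = est q' a' u' v' x' (es y)) ∨
      (x = ez ∧ (t = ee ∨ t = ers y)) := by
  obtain ⟨i, σ, h1, rfl⟩ := h
  cases i with
  | stp q1 a1 o =>
    simp only [lh, rh] at h1 ⊢
    rcases hM : M q1 a1 with _ | ⟨q', (_ | _) | b⟩
    · rw [hM] at h1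
      simp only [emb_st, emb_z, emb_e, emb_var, est_inj] at h1 ⊢
      exact Or.inr ⟨h1.2.2.2.2.1, Or.inl trivial⟩
    · rw [hM] at h1
      rcases o with _ | b
      · simp only [emb_st, emb_s, emb_var, est_inj] at h1 ⊢
        exact Or.inl ⟨_, h1.2.2.2.2.1, _, _, _, _, rfl, rfl, rfl, rfl, rfl, by rw [h1.2.2.2.2.2]⟩
      · simp only [emb_st, emb_s, emb_var, est_inj] at h1 ⊢
        exact Or.inl ⟨_, h1.2.2.2.2.1, _, _, _, _, rfl, rfl, rfl, rfl, rfl, by rw [h1.2.2.2.2.2]⟩
    · rw [hM] at h1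
      rcases o with _ | b
      · simp only [emb_st, emb_s, emb_var, est_inj] at h1 ⊢
        exact Or.inl ⟨_, h1.2.2.2.2.1, _, _, _, _, rfl, rfl, rfl, rfl, rfl, by rw [h1.2.2.2.2.2]⟩
      · simp only [emb_st, emb_s, emb_var, est_inj] at h1 ⊢
        exact Or.inl ⟨_, h1.2.2.2.2.1, _, _, _, _, rfl, rfl, rfl, rfl, rfl, by rw [h1.2.2.2.2.2]⟩
    · rw [hM] at h1
      simp only [emb_st, emb_s, emb_var, est_inj] at h1 ⊢
      exact Or.inl ⟨_, h1.2.2.2.2.1, _, _, _, _, rfl, rfl, rfl, rfl, rfl, by rw [h1.2.2.2.2.2]⟩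
  | tout q1 a1 =>
    simp only [lh, rh, emb_st, emb_z, emb_rs, emb_var, est_inj] at h1 ⊢
    exact Or.inr ⟨h1.2.2.2.2.1, Or.inr (by rw [h1.2.2.2.2.2])⟩
  | go =>
    simp only [lh, emb_rs] at h1
    exact absurd h1 (ne_of_hd (by simp [hd_st, hd_rs]))

theorem mr_rs {y t : ET Λ Γ n V} (h : MR M a0 w (ers y) t) :
    ∃ y', y = es y' ∧ t = ct (c0 a0 w) y' (es (es ez)) := by
  obtain ⟨i, σ, h1, rfl⟩ := h
  cases i with
  | stp q1 a1 o =>
    exfalso
    simp only [lh] at h1
    split at h1 <;> simp only [emb_st] at h1 <;>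
      exact absurd h1 (ne_of_hd (by simp [hd_st, hd_rs]))
  | tout q1 a1 =>
    simp only [lh, emb_st] at h1
    exact absurd h1 (ne_of_hd (by simp [hd_st, hd_rs]))
  | go =>
    simp only [lh, rh, emb_rs, emb_st, emb_s, emb_z, emb_e, emb_word, emb_var, ers_inj] at h1 ⊢
    exact ⟨_, h1, rfl⟩

theorem mr_head {x t : ET Λ Γ n V} (h : MR M a0 w x t) :
    (∃ q a u v x' y, x = est q a u v x' y) ∨ ∃ y, x = ers y := by
  obtain ⟨i, σ, rfl, rfl⟩ := h
  cases i with
  | stp q1 a1 o =>
    left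
    simp only [lh]
    split <;> simp only [emb_st] <;> exact ⟨_, _, _, _, _, _, rfl⟩
  | tout q1 a1 =>
    left
    simp only [lh, emb_st]
    exact ⟨_, _, _, _, _, _, rfl⟩
  | go =>
    right
    simp only [lh, emb_rs]
    exact ⟨_, rfl⟩

theorem mr_e {t : ET Λ Γ n V} (h : MR M a0 w ee t) : False := by
  rcases mr_head M a0 w h with ⟨q, a, u, v, x', y, h1⟩ | ⟨y, h1⟩
  · exact ne_of_hd (by simp [hd_st, hd_e]) h1
  · exact ne_of_hd (by simp [hd_rs, hd_e]) h1

theorem eword_e {L : List Γ} (h : (eword L : ET Λ Γ n V) = ee) : L = [] := by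
  cases L with
  | nil => rfl
  | cons b L => exact absurd h (ne_of_hd (by simp [eword, hd_lt, hd_e]))

theorem eword_lt {L : List Γ} {b : Γ} {t : ET Λ Γ n V} (h : eword L = elt b t) :
    ∃ L', L = b :: L' ∧ t = eword L' := by
  cases L with
  | nil => exact absurd h (ne_of_hd (by simp [eword, hd_lt, hd_e]))
  | cons b' L =>
    simp only [eword, elt_inj] at h
    exact ⟨L, by rw [h.1], h.2.symm⟩

theorem mr_ct {c : LC Λ Γ} {x y t : ET Λ Γ n V} (h : MR M a0 w (ct c x y) t) :
    (∃ x' c', x = es x' ∧ lstep M c = some c' ∧ t = ct c' x' (es y)) ∨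
      (x = ez ∧ (t = ee ∨ t = ers y)) := by
  obtain ⟨i, σ, h1, rfl⟩ := h
  obtain ⟨q, L, a, R⟩ := c
  unfold ct at h1 ⊢
  simp only at h1
  cases i with
  | stp q1 a1 o =>
    simp only [lh, rh] at h1 ⊢
    rcases hM : M q1 a1 with _ | ⟨q', (_ | _) | b⟩
    · rw [hM] at h1
      simp only [emb_st, emb_z, emb_e, emb_var, est_inj] at h1 ⊢
      exact Or.inr ⟨h1.2.2.2.2.1, Or.inl trivial⟩
    · rw [hM] at h1
      rcases o with _ | b
      · simp only [emb_st, emb_s, emb_e, emb_lt, emb_var, est_inj] at h1 ⊢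
        obtain ⟨rfl, rfl, h2, h3, h4, h5⟩ := h1
        obtain rfl := eword_e h2
        refine Or.inl ⟨_, (q', [], default, a :: R), h4, ?_, ?_⟩
        · simp [lstep, hM]
        · simp [eword, h3, h5]
      · simp only [emb_st, emb_s, emb_e, emb_lt, emb_var, est_inj] at h1 ⊢
        obtain ⟨rfl, rfl, h2, h3, h4, h5⟩ := h1
        obtain ⟨L', rfl, h6⟩ := eword_lt h2
        refine Or.inl ⟨_, (q', L', b, a :: R), h4, ?_, ?_⟩
        · simp [lstep, hM]
        · simp [eword, h3, h5, h6]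
    · rw [hM] at h1
      rcases o with _ | b
      · simp only [emb_st, emb_s, emb_e, emb_lt, emb_var, est_inj] at h1 ⊢
        obtain ⟨rfl, rfl, h2, h3, h4, h5⟩ := h1
        obtain rfl := eword_e h3
        refine Or.inl ⟨_, (q', a :: L, default, []), h4, ?_, ?_⟩
        · simp [lstep, hM]
        · simp [eword, h2, h5]
      · simp only [emb_st, emb_s, emb_e, emb_lt, emb_var, est_inj] at h1 ⊢
        obtain ⟨rfl, rfl, h2, h3, h4, h5⟩ := h1
        obtain ⟨R', rfl, h6⟩ := eword_lt h3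
        refine Or.inl ⟨_, (q', a :: L, b, R'), h4, ?_, ?_⟩
        · simp [lstep, hM]
        · simp [eword, h2, h5, h6]
    · rw [hM] at h1
      simp only [emb_st, emb_s, emb_e, emb_lt, emb_var, est_inj] at h1 ⊢
      obtain ⟨rfl, rfl, h2, h3, h4, h5⟩ := h1
      refine Or.inl ⟨_, (q', L, b, R), h4, ?_, ?_⟩
      · simp [lstep, hM]
      · simp [h2, h3, h5]
  | tout q1 a1 =>
    simp only [lh, rh, emb_st, emb_z, emb_rs, emb_var, est_inj] at h1 ⊢
    exact Or.inr ⟨h1.2.2.2.2.1, Or.inr (by rw [h1.2.2.2.2.2])⟩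
  | go =>
    simp only [lh, emb_rs] at h1
    exact absurd h1 (ne_of_hd (by simp [hd_st, hd_rs]))

/-! ### forward steps -/

theorem mr_step {c c' : LC Λ Γ} (h : lstep M c = some c') (x y : ET Λ Γ n V) :
    MR M a0 w (ct c (es x) y) (ct c' x (es y)) := by
  obtain ⟨q, L, a, R⟩ := c
  unfold lstep at h
  simp only at h
  rcases hM : M q a with _ | ⟨q', (_ | _) | b⟩
  · simp [hM] at h
  · rw [hM] at h
    cases L with
    | nil =>
      simp only [Option.some.injEq] at h
      subst h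
      refine ⟨.stp q a none, ![ee, eword R, x, y], ?_, ?_⟩
      · simp only [lh, hM, emb_st, emb_s, emb_e, emb_var, ct, eword]
        rfl
      · simp only [rh, hM, emb_st, emb_s, emb_e, emb_lt, emb_var, ct, eword]
        rfl
    | cons b L =>
      simp only [Option.some.injEq] at h
      subst h
      refine ⟨.stp q a (some b), ![eword L, eword R, x, y], ?_, ?_⟩
      · simp only [lh, hM, emb_st, emb_s, emb_lt, emb_var, ct, eword]
        rfl
      · simp only [rh, hM, emb_st, emb_s, emb_lt, emb_var, ct, eword]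
        rfl
  · rw [hM] at h
    cases R with
    | nil =>
      simp only [Option.some.injEq] at h
      subst h
      refine ⟨.stp q a none, ![eword L, ee, x, y], ?_, ?_⟩
      · simp only [lh, hM, emb_st, emb_s, emb_e, emb_var, ct, eword]
        rfl
      · simp only [rh, hM, emb_st, emb_s, emb_e, emb_lt, emb_var, ct, eword]
        rfl
    | cons b R =>
      simp only [Option.some.injEq] at h
      subst h
      refine ⟨.stp q a (some b), ![eword L, eword R, x, y], ?_, ?_⟩
      · simp only [lh, hM, emb_st, emb_s, emb_lt, emb_var, ct, eword]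
        rfl
      · simp only [rh, hM, emb_st, emb_s, emb_lt, emb_var, ct, eword]
        rfl
  · rw [hM] at h
    simp only [Option.some.injEq] at h
    subst h
    refine ⟨.stp q a none, ![eword L, eword R, x, y], ?_, ?_⟩
    · simp only [lh, hM, emb_st, emb_s, emb_var, ct]
      rfl
    · simp only [rh, hM, emb_st, emb_s, emb_var, ct]
      rfl

theorem mr_tout (c : LC Λ Γ) (y : ET Λ Γ n V) : MR M a0 w (ct c ez y) (ers y) := by
  refine ⟨.tout c.1 c.2.2.1, ![eword c.2.1, eword c.2.2.2, ez, y], ?_, ?_⟩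
  · simp only [lh, emb_st, emb_z, emb_var, ct]
    rfl
  · simp only [rh, emb_rs, emb_var]
    rfl

theorem mr_go (y : ET Λ Γ n V) : MR M a0 w (ers (es y)) (ct (c0 a0 w) y (es (es ez))) := by
  refine ⟨.go, fun _ => y, ?_, ?_⟩
  · simp only [lh, emb_rs, emb_s, emb_var]
  · simp only [rh, emb_st, emb_s, emb_z, emb_e, emb_word, emb_var, ct, c0, eword]

/-- Numerals. -/
def num : ℕ → ET Λ Γ n V
  | 0 => ez
  | k + 1 => es (num k)

theorem num_inj {a b : ℕ} (h : (num a : ET Λ Γ n V) = num b) : a = b := by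
  induction a generalizing b with
  | zero =>
    cases b with
    | zero => rfl
    | succ b => exact absurd h (ne_of_hd (by simp [num, hd_z, hd_s]))
  | succ a ih =>
    cases b with
    | zero => exact absurd h (ne_of_hd (by simp [num, hd_z, hd_s]))
    | succ b => rw [ih (es_inj.1 h)]

/-- Accessibility for the root steps of the machine. -/
def MA (x : ET Λ Γ n V) : Prop := Acc (fun a b => MR M a0 w b a) x

theorem MA.intro {x : ET Λ Γ n V} (h : ∀ t, MR M a0 w x t → MA M a0 w t) : MA M a0 w x :=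
  Acc.intro _ h

theorem ma_e : MA M a0 w (ee : ET Λ Γ n V) := MA.intro M a0 w fun _ h => (mr_e M a0 w h).elim

/-- Adding `j` to a term. -/
def addn (j : ℕ) (y : ET Λ Γ n V) : ET Λ Γ n V := es^[j] y

theorem addn_num (j k : ℕ) : (addn j (num k) : ET Λ Γ n V) = num (j + k) := by
  induction j with
  | zero => simp [addn]
  | succ j ih =>
    unfold addn at ih ⊢
    rw [Function.iterate_succ_apply', ih, show j + 1 + k = (j + k) + 1 by omega]
    rfl

theorem run_lemma (k : ℕ) : ∀ (c : LC Λ Γ), H M k c → ∀ x y : ET Λ Γ n V,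
    (∀ j ≤ k, x = num j → MA M a0 w (ers (addn j y))) → MA M a0 w (ct c x y) := by
  induction k with
  | zero =>
    intro c hc x y h
    refine MA.intro M a0 w fun t ht => ?_
    rcases mr_ct M a0 w ht with ⟨x', c', _, h2, _⟩ | ⟨h1, rfl | rfl⟩
    · have hc' : lstep M c = none := hc
      rw [hc'] at h2
      exact absurd h2 (by simp)
    · exact ma_e M a0 w
    · exact h 0 le_rfl h1
  | succ k ih =>
    intro c hc x y h
    obtain ⟨c1, hc1, hk⟩ := hc
    refine MA.intro M a0 w fun t ht => ?_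
    rcases mr_ct M a0 w ht with ⟨x', c', h1, h2, rfl⟩ | ⟨h1, rfl | rfl⟩
    · rw [hc1, Option.some.injEq] at h2
      subst h2
      refine ih c1 hk x' (es y) fun j hj hx => ?_
      have h3 := h (j + 1) (by omega) (by rw [h1, hx]; rfl)
      unfold addn at h3 ⊢
      rwa [Function.iterate_succ_apply] at h3
    · exact ma_e M a0 w
    · exact h 0 (by omega) h1

theorem ma_num (K : ℕ) (hK : H M K (c0 a0 w)) (m : ℕ) :
    MA M a0 w (ct (c0 a0 w) (num m) (es (es ez)) : ET Λ Γ n V) := by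
  have key : ∀ d m, K < m + d →
      MA M a0 w (ct (c0 a0 w) (num m) (es (es ez)) : ET Λ Γ n V) := by
    intro d
    induction d with
    | zero =>
      intro m hm
      refine run_lemma M a0 w K _ hK _ _ fun j hj h => ?_
      have := num_inj h
      omega
    | succ d ih =>
      intro m hm
      refine run_lemma M a0 w K _ hK _ _ fun j hj h => ?_
      have h1 := num_inj h
      subst h1
      have h2 : (addn m (es (es ez)) : ET Λ Γ n V) = num (m + 2) := addn_num m 2
      rw [h2]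
      refine MA.intro M a0 w fun t ht => ?_
      obtain ⟨y', h3, rfl⟩ := mr_rs M a0 w ht
      have h4 : y' = num (m + 1) := (es_inj.1 h3).symm
      rw [h4]
      exact ih (m + 1) (by omega)
  exact key (K + 1) m (by omega)

theorem ma_init (K : ℕ) (hK : H M K (c0 a0 w)) (y : ET Λ Γ n V) :
    MA M a0 w (ct (c0 a0 w) y (es (es ez))) := by
  refine run_lemma M a0 w K _ hK _ _ fun j hj h => ?_
  have h2 : (addn j (es (es ez)) : ET Λ Γ n V) = num (j + 2) := addn_num j 2
  rw [h2]
  refine MA.intro M a0 w fun t ht => ?_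
  obtain ⟨y', h3, rfl⟩ := mr_rs M a0 w ht
  have h4 : y' = num (j + 1) := (es_inj.1 h3).symm
  rw [h4]
  exact ma_num M a0 w K hK _

theorem ma_rs (K : ℕ) (hK : H M K (c0 a0 w)) (y : ET Λ Γ n V) : MA M a0 w (ers y) := by
  refine MA.intro M a0 w fun t ht => ?_
  obtain ⟨y', h3, rfl⟩ := mr_rs M a0 w ht
  exact ma_init M a0 w K hK y'

/-- If the machine halts, root rewriting is terminating. -/
theorem ma_all (K : ℕ) (hK : H M K (c0 a0 w)) (t : ET Λ Γ n V) : MA M a0 w t := by
  have key : ∀ x : ET Λ Γ n V, ∀ q a u v y, MA M a0 w (est q a u v x y) := by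
    intro x
    induction x with
    | var v0 =>
      intro q a u v y
      refine MA.intro M a0 w fun t ht => ?_
      rcases mr_st M a0 w ht with ⟨x', h1, _⟩ | ⟨h1, _⟩
      · exact absurd h1 (by simp [es])
      · exact absurd h1 (by simp [ez])
    | app f ts ih =>
      intro q a u v y
      refine MA.intro M a0 w fun t ht => ?_
      rcases mr_st M a0 w ht with ⟨x', h1, q', a', u', v', rfl⟩ | ⟨_, rfl | rfl⟩
      · unfold es at h1
        rw [app.injEq] at h1
        obtain ⟨rfl, h2⟩ := h1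
        have h3 := eq_of_heq h2
        have h4 := ih (0 : Fin 1)
        rw [h3] at h4
        exact h4 _ _ _ _ _
      · exact ma_e M a0 w
      · exact ma_rs M a0 w K hK y
  refine MA.intro M a0 w fun u hu => ?_
  rcases mr_head M a0 w hu with ⟨q, a, u1, v1, x', y, rfl⟩ | ⟨y, rfl⟩
  · exact (key x' q a u1 v1 y).inv hu
  · exact (ma_rs M a0 w K hK y).inv hu

/-- If root rewriting is terminating, the machine halts. -/
theorem halts_of_ma (h : ∀ t : ET Λ Γ n V, MA M a0 w t) : ∃ K, H M K (c0 a0 w) := by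
  by_contra hn
  simp only [not_exists] at hn
  have key : ∀ t : ET Λ Γ n V, MA M a0 w t →
      ¬ ((∃ (c : LC Λ Γ) (a b : ℕ), (∀ K, ¬ H M K c) ∧ t = ct c (num a) (num (b + 1))) ∨
        ∃ b : ℕ, t = ers (num (b + 1))) := by
    intro t ht
    induction ht with
    | intro t _ ih =>
      rintro (⟨c, a, b, hc, rfl⟩ | ⟨b, rfl⟩)
      · rcases a with _ | a
        · exact ih _ (mr_tout M a0 w c _) (Or.inr ⟨b, rfl⟩)
        · have h1 : lstep M c ≠ none := fun h1 => hc 0 h1
          obtain ⟨c', hc'⟩ := Option.ne_none_iff_exists'.1 h1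
          refine ih _ (mr_step M a0 w hc' (num a) _) (Or.inl ⟨c', a, b + 1, fun K hK => ?_, rfl⟩)
          exact hc (K + 1) ⟨c', hc', hK⟩
      · exact ih _ (mr_go M a0 w (num b)) (Or.inl ⟨_, b, 1, hn, rfl⟩)
  exact key _ (h (ers (num 1))) (Or.inr ⟨0, rfl⟩)

end

end Pool.Agent.Helper73.LR
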