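import Pool.Agent.Helper73.LR.Defs

/-!
# Strong normalization: generic facts
-/

namespace Pool.Agent.Helper73.LR

open Tm Relation

variable {F : Type} {ar : F → ℕ} {V W U : Type}

theorem subst_subst (σ : W → Tm F ar V) (τ : U → Tm F ar W) (t : Tm F ar U) :
    (t.subst τ).subst σ = t.subst fun u => (τ u).subst σ := by
  induction t with
  | var x => rfl
  | app f ts ih =>
    simp only [subst]
    congr 1
    funext i
    exact ih i

/-- Strongly normalizing terms. -/
def SN (l r : Tm F ar W) (t : Tm F ar V) : Prop := Acc (fun x y => Step l r y x) t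

section

variable {l r : Tm F ar W}

theorem SN.intro {t : Tm F ar V} (h : ∀ u, Step l r t u → SN l r u) : SN l r t :=
  Acc.intro _ h

theorem SN.step {t u : Tm F ar V} (h : SN l r t) (hs : Step l r t u) : SN l r u :=
  h.inv hs

theorem SN.steps {t u : Tm F ar V} (h : SN l r t) (hs : ReflTransGen (Step l r) t u) :
    SN l r u := by
  induction hs with
  | refl => exact h
  | tail _ h1 ih => exact ih.step h1

theorem SN.arg {f : F} {ts : Fin (ar f) → Tm F ar V} (h : SN l r (app f ts)) (i : Fin (ar f)) :
    SN l r (ts i) := by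
  have key : ∀ t : Tm F ar V, SN l r t → ∀ ts : Fin (ar f) → Tm F ar V, t = app f ts →
      SN l r (ts i) := by
    intro t ht
    induction ht with
    | intro t _ ih =>
      intro ts hts
      refine SN.intro fun u hu => ?_
      have := ih (app f (Function.update ts i u)) (by rw [hts]; exact Step.arg f ts i u hu) _ rfl
      simpa using this
  exact key _ h ts rfl

/-- The relation on tuples: one component is rewritten. -/
def PStep (l r : Tm F ar W) {k : ℕ} (ts us : Fin k → Tm F ar V) : Prop :=
  ∃ i u, Step l r (ts i) u ∧ us = Function.update ts i u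

theorem acc_pstep {k : ℕ} (ts : Fin k → Tm F ar V) (h : ∀ i, SN l r (ts i)) :
    Acc (fun x y => PStep l r y x) ts := by
  induction k with
  | zero =>
    refine Acc.intro _ fun us hus => ?_
    obtain ⟨i, _⟩ := hus
    exact i.elim0
  | succ k ih =>
    have h1 : Acc (fun x y => Step l r y x) (ts 0) := h 0
    have h2 := ih (fun i => ts i.succ) fun i => h i.succ
    have h3 := h1.prod_gameAdd h2
    have key : ∀ p : Tm F ar V × (Fin k → Tm F ar V),
        Acc (Prod.GameAdd (fun x y => Step l r y x) (fun x y => PStep l r y x)) p →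
        ∀ ts : Fin (k + 1) → Tm F ar V, ts 0 = p.1 → (fun i => ts (Fin.succ i)) = p.2 →
        Acc (fun x y => PStep l r y x) ts := by
      intro p hp
      induction hp with
      | intro p _ ih2 =>
        intro ts h0 hs
        refine Acc.intro _ fun us hus => ?_
        obtain ⟨i, u, hu, rfl⟩ := hus
        refine Fin.cases ?_ (fun j => ?_) i hu
        · intro hu
          refine ih2 (u, p.2) ?_ _ ?_ ?_
          · rw [show p = (p.1, p.2) from rfl]
            exact Prod.GameAdd.fst (by rw [← h0]; exact hu)
          · simp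
          · funext j
            simp [← hs]
        · intro hu
          refine ih2 (p.1, Function.update (fun i => ts (Fin.succ i)) j u) ?_ _ ?_ ?_
          · rw [show p = (p.1, p.2) from rfl]
            exact Prod.GameAdd.snd ⟨j, u, by rw [← hs]; exact hu, by rw [← hs]⟩
          · rw [Function.update_of_ne (Fin.succ_ne_zero j).symm]
            exact h0
          · funext j'
            show Function.update ts j.succ u j'.succ =
              Function.update (fun i => ts (Fin.succ i)) j u j'
            by_cases hj : j' = j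
            · subst hj; simp
            · rw [Function.update_of_ne hj, Function.update_of_ne (by simpa using hj)]
    exact key _ h3 ts rfl rfl

/-- A head symbol at which no rewrite step takes place. -/
def Inert (l : Tm F ar W) (V : Type) (f : F) : Prop :=
  ∀ (ts : Fin (ar f) → Tm F ar V) (σ : W → Tm F ar V), app f ts ≠ l.subst σ

theorem Inert.step {f : F} (hf : Inert l V f) {ts : Fin (ar f) → Tm F ar V} {t : Tm F ar V}
    (h : Step l r (app f ts) t) : ∃ us, t = app f us ∧ PStep l r ts us := by
  generalize ht0 : app f ts = t0 at h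
  cases h with
  | root σ => exact absurd ht0 (hf ts σ)
  | arg g ss i u h =>
    cases ht0
    exact ⟨_, rfl, i, u, h, rfl⟩

theorem Inert.sn {f : F} (hf : Inert l V f) {ts : Fin (ar f) → Tm F ar V}
    (h : ∀ i, SN l r (ts i)) : SN l r (app f ts) := by
  have h1 := acc_pstep ts h
  induction h1 with
  | intro ts _ ih =>
    refine SN.intro fun u hu => ?_
    obtain ⟨us, rfl, hus⟩ := hf.step hu
    obtain ⟨i, v, hv, rfl⟩ := hus
    refine ih _ ⟨i, v, hv, rfl⟩ fun j => ?_
    by_cases hj : j = i
    · subst hj
      simpa using (h j).step hv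
    · rw [Function.update_of_ne hj]
      exact h j

/-- Tuples reachable from a tuple. -/
theorem PStep.mono {k : ℕ} {ts us : Fin k → Tm F ar V} (h : PStep l r ts us) (i : Fin k) :
    ReflTransGen (Step l r) (ts i) (us i) := by
  obtain ⟨j, u, hu, rfl⟩ := h
  by_cases hj : i = j
  · subst hj
    simpa using ReflTransGen.single hu
  · rw [Function.update_of_ne hj]

theorem sn_app {f : F} {ts : Fin (ar f) → Tm F ar V} (h : ∀ i, SN l r (ts i))
    (h1 : ∀ us : Fin (ar f) → Tm F ar V, (∀ i, ReflTransGen (Step l r) (ts i) (us i)) →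
      ∀ σ, app f us = l.subst σ → SN l r (r.subst σ)) : SN l r (app f ts) := by
  have h2 := acc_pstep ts h
  induction h2 with
  | intro ts _ ih =>
    refine SN.intro fun u hu => ?_
    generalize ht0 : app f ts = t0 at hu
    cases hu with
    | root σ => exact h1 ts (fun i => .refl) σ ht0
    | arg g ss i v hv =>
      cases ht0
      have hp : PStep l r ts (Function.update ts i v) := ⟨i, v, hv, rfl⟩
      refine ih _ hp (fun j => ?_) fun us hus σ hσ => ?_
      · exact (h j).steps (hp.mono j)
      · exact h1 us (fun j => (hp.mono j).trans (hus j)) σ hσ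

/-- Terms without redexes. -/
def NF (l r : Tm F ar W) (t : Tm F ar V) : Prop := ∀ u, ¬ Step l r t u

theorem NF.sn {t : Tm F ar V} (h : NF l r t) : SN l r t := SN.intro fun u hu => absurd hu (h u)

theorem NF.eq {t u : Tm F ar V} (h : NF l r t) (hs : ReflTransGen (Step l r) t u) : u = t := by
  induction hs with
  | refl => rfl
  | tail _ h1 ih => rw [ih] at h1; exact absurd h1 (h _)

theorem nf_app {f : F} {ts : Fin (ar f) → Tm F ar V} (h : ∀ i, NF l r (ts i))
    (h1 : ∀ σ, app f ts ≠ l.subst σ) : NF l r (app f ts) := by
  intro u hu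
  generalize ht0 : app f ts = t0 at hu
  cases hu with
  | root σ => exact h1 σ ht0
  | arg g ss i v hv =>
    cases ht0
    exact h i v hv

/-- Subterms. -/
inductive Sub : Tm F ar V → Tm F ar V → Prop
  | refl (t : Tm F ar V) : Sub t t
  | arg (f : F) (ts : Fin (ar f) → Tm F ar V) (i : Fin (ar f)) (s : Tm F ar V)
      (h : Sub s (ts i)) : Sub s (app f ts)

theorem Sub.trans {s t u : Tm F ar V} (h1 : Sub s t) (h2 : Sub t u) : Sub s u := by
  induction h2 with
  | refl t => exact h1
  | arg f ts i t _ ih => exact Sub.arg f ts i _ (ih h1)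

theorem Sub.step {s t u : Tm F ar V} (h : Sub s t) (hs : Step l r s u) :
    ∃ t', Step l r t t' ∧ Sub u t' := by
  induction h with
  | refl t => exact ⟨u, hs, .refl u⟩
  | arg f ts i s _ ih =>
    obtain ⟨t', h1, h2⟩ := ih hs
    exact ⟨_, Step.arg f ts i t' h1, Sub.arg f _ i _ (by simpa using h2)⟩

/-- A rewrite step followed by taking a subterm. -/
def QStep (l r : Tm F ar W) (s s' : Tm F ar V) : Prop := ∃ u, Step l r s u ∧ Sub s' u

theorem acc_qstep {t : Tm F ar V} (h : SN l r t) : ∀ s, Sub s t →
    Acc (fun x y => QStep l r y x) s := by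
  induction h with
  | intro t _ ih =>
    intro s hs
    refine Acc.intro _ fun s' hs' => ?_
    obtain ⟨u, h1, h2⟩ := hs'
    obtain ⟨t', h3, h4⟩ := hs.step h1
    exact ih t' h3 s' (h2.trans h4)

/-- Variables occurring in a term. -/
inductive Occ (x : V) : Tm F ar V → Prop
  | var : Occ x (.var x)
  | app (f : F) (ts : Fin (ar f) → Tm F ar V) (i : Fin (ar f)) (h : Occ x (ts i)) :
      Occ x (.app f ts)

theorem subst_eq_iff (σ τ : W → Tm F ar V) (t : Tm F ar W) :
    t.subst σ = t.subst τ ↔ ∀ x, Occ x t → σ x = τ x := by
  induction t with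
  | var x =>
    constructor
    · intro h y hy
      cases hy
      exact h
    · intro h
      exact h x .var
  | app f ts ih =>
    simp only [subst, app.injEq, heq_eq_eq, true_and]
    constructor
    · intro h x hx
      cases hx with
      | app _ _ i hi => exact (ih i).1 (congrFun h i) x hi
    · intro h
      funext i
      exact (ih i).2 fun x hx => h x (.app f ts i hx)

theorem sn_of_occ {σ : U → Tm F ar V} {t : Tm F ar U} {x : U} (h : SN l r (t.subst σ))
    (hx : Occ x t) : SN l r (σ x) := by
  induction hx with
  | var => exact h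
  | app f ts i _ ih => exact ih (SN.arg h i)

theorem terminating_iff (l r : Tm F ar ℕ) :
    Terminating l r ↔ ∀ t : Tm F ar ℕ, SN l r t := by
  unfold Terminating SN
  constructor
  · intro h t
    by_contra hn
    rw [not_acc_iff_exists_descending_chain] at hn
    obtain ⟨f, _, hf⟩ := hn
    exact h ⟨f, hf⟩
  · rintro h ⟨t, ht⟩
    exact not_acc_iff_exists_descending_chain.2 ⟨t, rfl, ht⟩ (h (t 0))

end

end Pool.Agent.Helper73.LR
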