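import Pool.Agent.Helper73.LR.SN

/-!
# One linear rule simulates finitely many linear rules applied at the root
-/

namespace Pool.Agent.Helper73.LR

open Tm Relation

/-- The symbols of the simulating rule. -/
inductive Sy (D : Type) : Type
  | f : Sy D
  | g : Sy D
  | c : Sy D
  | dat (d : D) : Sy D

/-- The arities of the symbols. -/
def arS (n : ℕ) {D : Type} (arD : D → ℕ) : Sy D → ℕ
  | .f => n
  | .g => n
  | .c => 0
  | .dat d => arD d

/-- The variables of the simulating rule. -/
inductive PV (n : ℕ) (U : Type) : Type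
  | rul (i : Fin n) (u : U) : PV n U
  | wild (i k j : ℕ) : PV n U

section

variable {n : ℕ} {D : Type} {arD : D → ℕ} {U V W : Type}

/-- The constant. -/
def cst : Tm (Sy D) (arS n arD) V := app (.c : Sy D) fun i : Fin 0 => i.elim0

theorem app_c (ts : Fin (arS n arD .c) → Tm (Sy D) (arS n arD) V) : app (.c : Sy D) ts = cst := by
  unfold cst
  congr 1
  funext i
  exact Fin.elim0 i

theorem subst_cst (σ : W → Tm (Sy D) (arS n arD) V) :
    (cst : Tm (Sy D) (arS n arD) W).subst σ = cst := app_c _

/-- Substitution into a data term. -/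
def emb (σ : U → Tm (Sy D) (arS n arD) V) : Tm D arD U → Tm (Sy D) (arS n arD) V
  | var u => σ u
  | app d ts => app (.dat d) fun i => emb σ (ts i)

theorem subst_emb (τ : W → Tm (Sy D) (arS n arD) V) (σ : U → Tm (Sy D) (arS n arD) W)
    (t : Tm D arD U) : (emb σ t).subst τ = emb (fun u => (σ u).subst τ) t := by
  induction t with
  | var u => rfl
  | app d ts ih =>
    simp only [emb, subst]
    congr 1
    funext i
    exact ih i

theorem emb_congr {σ τ : U → Tm (Sy D) (arS n arD) V} {t : Tm D arD U}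
    (h : ∀ u, Occ u t → σ u = τ u) : emb σ t = emb τ t := by
  induction t with
  | var u => exact h u .var
  | app d ts ih =>
    simp only [emb]
    congr 1
    funext i
    exact ih i fun u hu => h u (.app d ts i hu)

/-- The pattern `t` below `k` levels, with wild cards. -/
def Wp (i : ℕ) : ℕ → Tm (Sy D) (arS n arD) (PV n U) → Tm (Sy D) (arS n arD) (PV n U)
  | 0, t => t
  | k + 1, t => app (.f : Sy D) fun j : Fin n => if j.val = k then Wp i k t else
      var (.wild i k j.val)

variable (l r : Fin n → Tm D arD U)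

/-- The `j`-th pattern. -/
def Pt (j : Fin n) : Tm (Sy D) (arS n arD) (PV n U) :=
  Wp j.val j.val (emb (fun u => var (.rul j u)) (l j))

/-- The `j`-th dummy. -/
def Dm (V : Type) (j : Fin n) : Tm (Sy D) (arS n arD) V := (Pt l j).subst fun _ => cst

/-- The term `x` below `k` levels, with dummies. -/
def Nn : ℕ → Tm (Sy D) (arS n arD) V → Tm (Sy D) (arS n arD) V
  | 0, x => x
  | k + 1, x => app (.f : Sy D) fun j : Fin n => if j.val = k then Nn k x else Dm l V j

/-- The left-hand side. -/
def Lhs : Tm (Sy D) (arS n arD) (PV n U) := app (.f : Sy D) fun j : Fin n => Pt l j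

/-- The right-hand side. -/
def Rhs : Tm (Sy D) (arS n arD) (PV n U) :=
  app (.g : Sy D) fun j : Fin n => Nn l n (emb (fun u => var (.rul j u)) (r j))

/-- Root rewriting with the rules `l i → r i`. -/
def Root (x y : Tm (Sy D) (arS n arD) V) : Prop :=
  ∃ (i : Fin n) (σ : U → Tm (Sy D) (arS n arD) V), x = emb σ (l i) ∧ y = emb σ (r i)

variable {l r}

theorem subst_Dm (τ : W → Tm (Sy D) (arS n arD) V) (j : Fin n) :
    (Dm l W j).subst τ = Dm l V j := by
  unfold Dm
  rw [subst_subst]
  simp only [subst_cst]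

theorem subst_Nn (τ : W → Tm (Sy D) (arS n arD) V) (k : ℕ) (x : Tm (Sy D) (arS n arD) W) :
    (Nn l k x).subst τ = Nn l k (x.subst τ) := by
  induction k with
  | zero => rfl
  | succ k ih =>
    simp only [Nn, subst]
    congr 1
    funext j
    split_ifs with h
    · exact ih
    · exact subst_Dm τ j

theorem subst_Rhs (τ : PV n U → Tm (Sy D) (arS n arD) V) : (Rhs l r).subst τ =
    app (.g : Sy D) fun j : Fin n => Nn l n (emb (fun u => τ (.rul j u)) (r j)) := by
  unfold Rhs
  simp only [subst]
  congr 1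
  funext j
  rw [subst_Nn, subst_emb]
  rfl

theorem occ_Wp {i k : ℕ} {t : Tm (Sy D) (arS n arD) (PV n U)} {x : PV n U}
    (h : Occ x (Wp i k t)) : Occ x t ∨ ∃ k' j', x = .wild i k' j' := by
  induction k with
  | zero => exact Or.inl h
  | succ k ih =>
    cases h with
    | app _ _ j hj =>
      dsimp only at hj
      split_ifs at hj with h1
      · exact ih hj
      · cases hj
        exact Or.inr ⟨_, _, rfl⟩

theorem occ_emb {σ : U → Tm (Sy D) (arS n arD) V} {t : Tm D arD U} {x : V}
    (h : Occ x (emb σ t)) : ∃ u, Occ u t ∧ Occ x (σ u) := by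
  induction t with
  | var u => exact ⟨u, .var, h⟩
  | app d ts ih =>
    cases h with
    | app _ _ i hi =>
      obtain ⟨u, h1, h2⟩ := ih i hi
      exact ⟨u, .app d ts i h1, h2⟩

theorem occ_Pt {j : Fin n} {x : PV n U} (h : Occ x (Pt l j)) :
    (∃ u, x = .rul j u) ∨ ∃ k' j', x = .wild j.val k' j' := by
  rcases occ_Wp h with h1 | h1
  · obtain ⟨u, _, h3⟩ := occ_emb h1
    cases h3
    exact Or.inl ⟨u, rfl⟩
  · exact Or.inr h1

theorem occ_Wp' {i k : ℕ} (hk : k ≤ n) {t : Tm (Sy D) (arS n arD) (PV n U)} {x : PV n U}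
    (h : Occ x t) : Occ x (Wp i k t) := by
  induction k with
  | zero => exact h
  | succ k ih =>
    refine Occ.app (.f : Sy D) _ (⟨k, hk⟩ : Fin n) ?_
    simp only [if_true]
    exact ih (by omega)

theorem occ_emb' {t : Tm D arD U} {u : U} (h : Occ u t) (j : Fin n) :
    Occ (PV.rul j u) (emb (fun u => var (.rul j u)) t : Tm (Sy D) (arS n arD) (PV n U)) := by
  induction h with
  | var => exact .var
  | app d ts i _ ih => exact Occ.app (.dat d : Sy D) _ i ih

theorem occ_Pt' {j : Fin n} {u : U} (h : Occ u (l j)) : Occ (.rul j u) (Pt l j) :=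
  occ_Wp' j.2.le (occ_emb' h j)

theorem subst_Wp {i : ℕ} {τ : PV n U → Tm (Sy D) (arS n arD) V}
    (hτ : ∀ (k : ℕ) (j : Fin n), τ (.wild i k j.val) = Dm l V j) (k : ℕ)
    (t : Tm (Sy D) (arS n arD) (PV n U)) : (Wp i k t).subst τ = Nn l k (t.subst τ) := by
  induction k with
  | zero => rfl
  | succ k ih =>
    simp only [Wp, Nn, subst]
    congr 1
    funext j
    split_ifs with h
    · exact ih
    · exact hτ k j

/-- The matching substitution. -/
theorem exists_match (i : Fin n) (σ : U → Tm (Sy D) (arS n arD) V) :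
    ∃ τ : PV n U → Tm (Sy D) (arS n arD) V, Nn l (i.val + 1) (emb σ (l i)) = (Lhs l).subst τ ∧
      ∀ u, τ (.rul i u) = σ u := by
  classical
  let τ : PV n U → Tm (Sy D) (arS n arD) V
    | .rul j u => if j = i then σ u else cst
    | .wild a _ j => if a = i.val then (if h : j < n then Dm l V ⟨j, h⟩ else cst) else cst
  refine ⟨τ, ?_, fun u => by simp [τ]⟩
  unfold Lhs
  simp only [Nn, subst]
  congr 1
  funext j
  split_ifs with h
  · have hj : j = i := Fin.ext h
    subst hj
    unfold Pt
    rw [subst_Wp (l := l) (by intro k j'; simp [τ])]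
    rw [subst_emb]
    simp [τ, subst]
  · unfold Dm
    rw [eq_comm, subst_eq_iff]
    intro x hx
    have hj : j ≠ i := fun h' => h (by rw [h'])
    rcases occ_Pt hx with ⟨u, rfl⟩ | ⟨k', j', rfl⟩
    · simp [τ, hj]
    · simp [τ, h]

theorem sub_Nn {k m : ℕ} (h : k ≤ m) (hm : m ≤ n) (x : Tm (Sy D) (arS n arD) V) :
    Sub (Nn l k x) (Nn l m x) := by
  induction m with
  | zero =>
    obtain rfl : k = 0 := by omega
    exact .refl _
  | succ m ih =>
    rcases Nat.lt_or_ge m k with h1 | h1
    · obtain rfl : k = m + 1 := by omega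
      exact .refl _
    · refine Sub.arg (.f : Sy D) _ (⟨m, hm⟩ : Fin n) _ ?_
      simp only [if_true]
      exact ih h1 (by omega)

theorem root_qstep {x y : Tm (Sy D) (arS n arD) V} (h : Root l r x y) :
    QStep (Lhs l) (Rhs l r) (Nn l n x) (Nn l n y) := by
  obtain ⟨i, σ, rfl, rfl⟩ := h
  obtain ⟨τ, h1, h2⟩ := exists_match (l := l) i σ
  have h3 : Step (Lhs l) (Rhs l r) (Nn l (i.val + 1) (emb σ (l i))) ((Rhs l r).subst τ) := by
    rw [h1]
    exact .root τ
  obtain ⟨t', h4, h5⟩ := (sub_Nn (l := l) (show i.val + 1 ≤ n from i.2) le_rfl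
    (emb σ (l i))).step h3
  refine ⟨t', h4, Sub.trans ?_ h5⟩
  rw [subst_Rhs]
  refine Sub.arg (.g : Sy D) _ i _ ?_
  simp only [h2]
  exact .refl _

/-- If the one rule is terminating, then so is root rewriting. -/
theorem acc_root (h : ∀ t : Tm (Sy D) (arS n arD) V, SN (Lhs l) (Rhs l r) t)
    (x : Tm (Sy D) (arS n arD) V) : Acc (fun a b => Root l r b a) x := by
  have h1 : Acc (fun a b => QStep (Lhs l) (Rhs l r) b a) (Nn l n x) :=
    acc_qstep (h _) _ (.refl _)
  have h2 : Acc (InvImage (fun a b => QStep (Lhs l) (Rhs l r) b a) (Nn l n)) x :=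
    InvImage.accessible _ h1
  exact Subrelation.accessible (fun hxy => root_qstep hxy) h2

/-! ### The converse -/

/-- The skeleton of a term. -/
def sk : Tm (Sy D) (arS n arD) V → Tm (Sy D) (arS n arD) V
  | var v => var v
  | app .f _ => cst
  | app .g _ => cst
  | app .c _ => cst
  | app (.dat d) ts => app (.dat d) fun i => sk (ts i)

theorem sk_emb (σ : U → Tm (Sy D) (arS n arD) V) (t : Tm D arD U) :
    sk (emb σ t) = emb (fun u => sk (σ u)) t := by
  induction t with
  | var u => rfl
  | app d ts ih =>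
    simp only [emb, sk]
    congr 1
    funext i
    exact ih i

theorem sk_step {t u : Tm (Sy D) (arS n arD) V} (h : Step (Lhs l) (Rhs l r) t u) :
    sk u = sk t := by
  induction h with
  | root σ => rfl
  | arg s ts i u _ ih =>
    cases s with
    | f => rfl
    | g => rfl
    | c => rfl
    | dat d =>
      simp only [sk]
      congr 1
      funext j
      by_cases hj : j = i
      · subst hj; simpa using ih
      · rw [Function.update_of_ne hj]

theorem sk_steps {t u : Tm (Sy D) (arS n arD) V}
    (h : ReflTransGen (Step (Lhs l) (Rhs l r)) t u) : sk u = sk t := by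
  induction h with
  | refl => rfl
  | tail _ h1 ih => rw [sk_step h1, ih]

theorem inert_g : Inert (Lhs l) V (.g : Sy D) := by
  intro ts σ h
  simp [Lhs, subst] at h

theorem inert_c : Inert (Lhs l) V (.c : Sy D) := by
  intro ts σ h
  simp [Lhs, subst] at h

theorem inert_dat (d : D) : Inert (Lhs l) V (.dat d : Sy D) := by
  intro ts σ h
  simp [Lhs, subst] at h

theorem f_reach {ts : Fin n → Tm (Sy D) (arS n arD) V} {t : Tm (Sy D) (arS n arD) V}
    (h : ReflTransGen (Step (Lhs l) (Rhs l r)) (app (.f : Sy D) ts) t) :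
    (∃ us : Fin n → Tm (Sy D) (arS n arD) V, t = app (.f : Sy D) us ∧
      ∀ i, ReflTransGen (Step (Lhs l) (Rhs l r)) (ts i) (us i)) ∨
    ∃ us : Fin n → Tm (Sy D) (arS n arD) V, t = app (.g : Sy D) us := by
  induction h with
  | refl => exact Or.inl ⟨ts, rfl, fun _ => .refl⟩
  | @tail t1 t2 _ hs ih =>
    rcases ih with ⟨us, rfl, hus⟩ | ⟨us, rfl⟩
    · generalize ht0 : (app (.f : Sy D) us : Tm (Sy D) (arS n arD) V) = t0 at hs
      cases hs with
      | root σ => exact Or.inr ⟨_, rfl⟩
      | arg s ss i v hv =>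
        cases ht0
        refine Or.inl ⟨_, rfl, fun j => ?_⟩
        have hp : PStep (Lhs l) (Rhs l r) us (Function.update us i v) := ⟨i, v, hv, rfl⟩
        exact (hus j).trans (hp.mono j)
    · obtain ⟨vs, h1, _⟩ := inert_g.step hs
      exact Or.inr ⟨vs, h1⟩

theorem reach_core {i k : ℕ} (hk : k ≤ n) {x : Tm (Sy D) (arS n arD) V}
    {t : Tm (Sy D) (arS n arD) (PV n U)} {τ : PV n U → Tm (Sy D) (arS n arD) V}
    (h : ReflTransGen (Step (Lhs l) (Rhs l r)) (Nn l k x) ((Wp i k t).subst τ)) :
    ReflTransGen (Step (Lhs l) (Rhs l r)) x (t.subst τ) := by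
  induction k with
  | zero => exact h
  | succ k ih =>
    rcases f_reach h with ⟨us, h1, h2⟩ | ⟨us, h1⟩
    · simp only [Wp, subst, app.injEq, heq_eq_eq, true_and] at h1
      have h3 := h2 ⟨k, hk⟩
      simp only [if_true] at h3
      have h4 : us ⟨k, hk⟩ = (Wp i k t).subst τ := by
        rw [← h1]
        simp
      rw [h4] at h3
      exact ih (by omega) h3
    · simp [Wp, subst] at h1

/-- Assumptions on the rules. -/
structure Good (l r : Fin n → Tm D arD U) : Prop where
  two : 2 ≤ n
  nvar : ∀ i u, l i ≠ var u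
  vars : ∀ i u, Occ u (r i) → Occ u (l i)
  inert : ∀ (V : Type) i j (σ : U → Tm (Sy D) (arS n arD) V),
    emb (fun _ => cst) (r i) ≠ emb σ (l j)

theorem pt_ne_cst (hg : Good l r) (j : Fin n) (τ : PV n U → Tm (Sy D) (arS n arD) V) :
    (Pt l j).subst τ ≠ cst := by
  unfold Pt cst
  rcases hj : j.val with _ | k
  · rcases hl : l j with u | ⟨d, ts⟩
    · exact absurd hl (hg.nvar j u)
    · simp [Wp, emb, subst]
  · simp [Wp, subst]

theorem nf_emb (t : Tm D arD U) :
    NF (Lhs l) (Rhs l r) (emb (fun _ => cst) t : Tm (Sy D) (arS n arD) V) := by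
  induction t with
  | var u =>
    exact nf_app (fun i => Fin.elim0 i) fun σ => inert_c _ σ
  | app d ts ih =>
    exact nf_app ih fun σ => inert_dat d _ σ

theorem nf_cst : NF (Lhs l) (Rhs l r) (cst : Tm (Sy D) (arS n arD) V) :=
  nf_app (fun i => Fin.elim0 i) fun σ => inert_c _ σ

theorem nf_Dm (hg : Good l r) (j : Fin n) : NF (Lhs l) (Rhs l r) (Dm l V j) := by
  have key : ∀ (i k : ℕ), NF (Lhs l) (Rhs l r)
      ((Wp i k (emb (fun u => var (.rul j u)) (l j))).subst fun _ => cst :
        Tm (Sy D) (arS n arD) V) := by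
    intro i k
    induction k with
    | zero =>
      simp only [Wp]
      rw [subst_emb]
      exact nf_emb _
    | succ k ih =>
      simp only [Wp, subst]
      refine nf_app (fun m => ?_) fun σ hσ => ?_
      · split_ifs with h
        · exact ih
        · exact nf_cst
      · simp only [Lhs, subst, app.injEq, heq_eq_eq, true_and] at hσ
        have h2 := hg.two
        obtain ⟨m, hm⟩ : ∃ m : Fin n, m.val ≠ k := by
          by_cases hk : k = 0
          · exact ⟨⟨1, by omega⟩, by simp [hk]⟩
          · exact ⟨⟨0, by omega⟩, by simpa using fun h => hk h.symm⟩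
        have h3 := congrFun hσ m
        simp only [hm, if_false] at h3
        exact pt_ne_cst hg m σ h3.symm
  exact key _ _

theorem sn_emb {σ : U → Tm (Sy D) (arS n arD) V} {t : Tm D arD U}
    (h : ∀ u, Occ u t → SN (Lhs l) (Rhs l r) (σ u)) : SN (Lhs l) (Rhs l r) (emb σ t) := by
  induction t with
  | var u => exact h u .var
  | app d ts ih =>
    exact (inert_dat d).sn fun i => ih i fun u hu => h u (.app d ts i hu)

theorem sn_of_emb {σ : U → Tm (Sy D) (arS n arD) V} {t : Tm D arD U}
    (h : SN (Lhs l) (Rhs l r) (emb σ t)) : ∀ u, Occ u t → SN (Lhs l) (Rhs l r) (σ u) := by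
  induction t with
  | var u => intro v hv; cases hv; exact h
  | app d ts ih =>
    intro u hu
    cases hu with
    | app _ _ i hi => exact ih i (SN.arg h i) u hi

/-- The main step. -/
theorem sn_Nn (hg : Good l r) {x : Tm (Sy D) (arS n arD) V} (hx : SN (Lhs l) (Rhs l r) x)
    (h : ∀ i (σ : U → Tm (Sy D) (arS n arD) V),
      ReflTransGen (Step (Lhs l) (Rhs l r)) x (emb σ (l i)) →
      SN (Lhs l) (Rhs l r) (Nn l n (emb σ (r i))) ∧
      ∀ j, SN (Lhs l) (Rhs l r) (Nn l n (emb (fun _ => cst) (r j)) :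
        Tm (Sy D) (arS n arD) V)) (k : ℕ) (hk : k ≤ n) :
    SN (Lhs l) (Rhs l r) (Nn l k x) := by
  induction k with
  | zero => exact hx
  | succ k ih =>
    refine sn_app (f := (.f : Sy D)) (fun j => ?_) fun us hus σ hσ => ?_
    · split_ifs with h1
      · exact ih (by omega)
      · exact (nf_Dm hg j).sn
    · rw [subst_Rhs]
      refine inert_g.sn fun j => ?_
      simp only [Lhs, subst, app.injEq, heq_eq_eq, true_and] at hσ
      subst hσ
      have h1 := hus ⟨k, hk⟩
      simp only [if_true] at h1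
      have h2 := reach_core (show k ≤ n by omega) h1
      rw [subst_emb] at h2
      obtain ⟨h3, h4⟩ := h _ _ h2
      by_cases hj : j.val = k
      · have : j = ⟨k, hk⟩ := Fin.ext hj
        subst this
        exact h3
      · have h5 := hus j
        simp only [hj, if_false] at h5
        have h6 := (nf_Dm hg j).eq h5
        unfold Dm at h6
        rw [subst_eq_iff] at h6
        have h7 : emb (fun u => σ (.rul j u)) (r j) = emb (fun _ => cst) (r j) :=
          emb_congr fun u hu => h6 _ (occ_Pt' (hg.vars j u hu))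
        rw [h7]
        exact h4 j

theorem sn_Nn_cst (hg : Good l r) (j : Fin n) :
    SN (Lhs l) (Rhs l r) (Nn l n (emb (fun _ => cst) (r j)) : Tm (Sy D) (arS n arD) V) := by
  refine sn_Nn hg (nf_emb _).sn (fun i σ hσ => ?_) n le_rfl
  have h1 := (nf_emb (l := l) (r := r) _).eq hσ
  exact absurd h1.symm (hg.inert V j i σ)

theorem sn_T (hg : Good l r) (hw : ∀ x : Tm (Sy D) (arS n arD) V, Acc (fun a b => Root l r b a) x)
    (x : Tm (Sy D) (arS n arD) V) (hx : SN (Lhs l) (Rhs l r) x) :
    SN (Lhs l) (Rhs l r) (Nn l n x) := by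
  have key : ∀ y, Acc (fun a b : Tm (Sy D) (arS n arD) V => Root l r b a) y → ∀ x, sk x = y →
      SN (Lhs l) (Rhs l r) x → SN (Lhs l) (Rhs l r) (Nn l n x) := by
    intro y hy
    induction hy with
    | intro y _ ih =>
      intro x hxy hx
      refine sn_Nn hg hx (fun i σ hσ => ⟨?_, fun j => sn_Nn_cst hg j⟩) n le_rfl
      have h1 : Root l r y (sk (emb σ (r i))) := by
        refine ⟨i, fun u => sk (σ u), ?_, sk_emb _ _⟩
        rw [← hxy, ← sk_emb, sk_steps hσ]
      refine ih _ h1 _ rfl (sn_emb fun u hu => ?_)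
      exact sn_of_emb (hx.steps hσ) u (hg.vars i u hu)
  exact key _ (hw (sk x)) x rfl hx

/-- If root rewriting is terminating, then so is the one rule. -/
theorem sn_all (hg : Good l r)
    (hw : ∀ x : Tm (Sy D) (arS n arD) V, Acc (fun a b => Root l r b a) x)
    (t : Tm (Sy D) (arS n arD) V) : SN (Lhs l) (Rhs l r) t := by
  induction t with
  | var v =>
    refine NF.sn fun u hu => ?_
    generalize ht : (var v : Tm (Sy D) (arS n arD) V) = t at hu
    cases hu with
    | root σ => simp [Lhs, subst] at ht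
    | arg => simp at ht
  | app s ts ih =>
    cases s with
    | g => exact inert_g.sn ih
    | c => exact inert_c.sn ih
    | dat d => exact (inert_dat d).sn ih
    | f =>
      refine sn_app ih fun us hus σ hσ => ?_
      rw [subst_Rhs]
      refine inert_g.sn fun j => ?_
      refine sn_T hg hw _ (sn_emb fun u hu => ?_)
      simp only [Lhs, subst, app.injEq, heq_eq_eq, true_and] at hσ
      subst hσ
      have h1 : SN (Lhs l) (Rhs l r) ((Pt l j).subst σ) := (ih j).steps (hus j)
      have h2 := occ_Pt' (hg.vars j u hu)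
      exact sn_of_occ h1 h2

end

end Pool.Agent.Helper73.LR
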