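import Pool.Agent.Helper73.LR.Halt

/-!
# Renaming of symbols and variables, and occurrences of variables
-/

namespace Pool.Agent.Helper73.LR

open Tm Relation

section

variable {F F' : Type} {ar : F → ℕ} {ar' : F' → ℕ} {V W : Type}

/-! ### occurrences -/

theorem occ_pos_iff [DecidableEq V] (x : V) (t : Tm F ar V) : 0 < t.occ x ↔ Occ x t := by
  induction t with
  | var y =>
    by_cases h : y = x
    · subst h
      simp only [Tm.occ, if_true]
      exact ⟨fun _ => .var, fun _ => Nat.one_pos⟩
    · simp only [Tm.occ, h, if_false, lt_irrefl, false_iff]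
      intro h'
      cases h'
      exact h rfl
  | app f ts ih =>
    simp only [Tm.occ]
    rw [Finset.sum_pos_iff]
    constructor
    · rintro ⟨i, _, hi⟩
      exact Occ.app f ts i ((ih i).1 hi)
    · intro h
      cases h with
      | app _ _ i h => exact ⟨i, Finset.mem_univ _, (ih i).2 h⟩

theorem occ_eq_zero_iff [DecidableEq V] (x : V) (t : Tm F ar V) : t.occ x = 0 ↔ ¬ Occ x t := by
  rw [← occ_pos_iff]
  omega

/-! ### renaming of symbols -/

/-- Renaming of the symbols. -/
def mapS (φ : F → F') (hφ : ∀ f, ar' (φ f) = ar f) : Tm F ar V → Tm F' ar' V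
  | var x => var x
  | app f ts => app (φ f) fun i => mapS φ hφ (ts (Fin.cast (hφ f) i))

variable {φ : F → F'} {hφ : ∀ f, ar' (φ f) = ar f}

theorem mapS_subst (σ : W → Tm F ar V) (t : Tm F ar W) :
    mapS φ hφ (t.subst σ) = (mapS φ hφ t).subst fun x => mapS φ hφ (σ x) := by
  induction t with
  | var x => rfl
  | app f ts ih =>
    simp only [subst, mapS]
    congr 1
    funext i
    exact ih _

theorem mapS_step {l r : Tm F ar W} {t u : Tm F ar V} (h : Step l r t u) :
    Step (mapS φ hφ l) (mapS φ hφ r) (mapS φ hφ t) (mapS φ hφ u) := by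
  induction h with
  | root σ =>
    rw [mapS_subst, mapS_subst]
    exact .root _
  | arg f ts i u _ ih =>
    simp only [mapS]
    have h1 : (fun j => mapS φ hφ (Function.update ts i u (Fin.cast (hφ f) j))) =
        Function.update (fun j => mapS φ hφ (ts (Fin.cast (hφ f) j))) (Fin.cast (hφ f).symm i)
          (mapS φ hφ u) := by
      funext j
      by_cases hj : j = Fin.cast (hφ f).symm i
      · subst hj
        simp
      · have hj' : Fin.cast (hφ f) j ≠ i := by
          intro h'
          apply hj
          rw [← h']
          simp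
        rw [Function.update_of_ne hj, Function.update_of_ne hj']
    rw [h1]
    exact Step.arg _ _ _ _ (by simpa using ih)

theorem mapS_occ [DecidableEq V] (x : V) (t : Tm F ar V) : (mapS φ hφ t).occ x = t.occ x := by
  induction t with
  | var y => rfl
  | app f ts ih =>
    simp only [mapS, Tm.occ]
    rw [← (finCongr (hφ f)).sum_comp]
    refine Finset.sum_congr rfl fun i _ => ?_
    exact ih _

theorem ofFn_cast {α : Type} {m m' : ℕ} (h : m' = m) (g : Fin m → α) :
    (List.ofFn fun i => g (Fin.cast h i)) = List.ofFn g := by
  subst h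
  rfl

theorem mapS_code (num : F' → ℕ) (vnum : V → ℕ) (t : Tm F ar V) :
    (mapS φ hφ t).code num vnum = t.code (fun f => num (φ f)) vnum := by
  induction t with
  | var y => rfl
  | app f ts ih =>
    simp only [mapS, Tm.code]
    congr 3
    rw [← ofFn_cast (hφ f)]
    congr 1
    funext i
    exact ih _

theorem app_cast {f g : F} (h : f = g) (ts : Fin (ar g) → Tm F ar V)
    (h' : ar f = ar g) : (app f fun i => ts (Fin.cast h' i)) = app g ts := by
  subst h
  rfl

theorem mapS_mapS {φ' : F' → F} {hφ' : ∀ f, ar (φ' f) = ar' f} (hinv : ∀ f, φ' (φ f) = f)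
    (t : Tm F ar V) : mapS φ' hφ' (mapS φ hφ t) = t := by
  induction t with
  | var x => rfl
  | app f ts ih =>
    simp only [mapS]
    have h1 : (fun i => mapS φ' hφ' (mapS φ hφ (ts (Fin.cast (hφ f) (Fin.cast (hφ' (φ f)) i))))) =
        fun i => ts (Fin.cast ((hφ' (φ f)).trans (hφ f)) i) := by
      funext i
      rw [ih]
      rfl
    rw [h1]
    exact app_cast (hinv f) ts _

theorem mapS_ne_var {t : Tm F ar V} (h : ∀ x, t ≠ var x) (x : V) : mapS φ hφ t ≠ var x := by
  cases t with
  | var y => exact absurd rfl (h y)
  | app f ts => simp [mapS]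

/-- Strong normalization of all terms is preserved by bijective renaming of the symbols. -/
theorem sn_of_mapS (l r : Tm F ar W) :
    (∀ t : Tm F' ar' V, SN (mapS φ hφ l) (mapS φ hφ r) t) → ∀ t : Tm F ar V, SN l r t := by
  intro h t
  have key : ∀ u : Tm F' ar' V, SN (mapS φ hφ l) (mapS φ hφ r) u →
      ∀ t : Tm F ar V, u = mapS φ hφ t → SN l r t := by
    intro u hu
    induction hu with
    | intro u _ ih =>
      intro t ht
      refine SN.intro fun v hv => ?_
      exact ih (mapS φ hφ v) (by rw [ht]; exact mapS_step hv) v rfl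
  exact key _ (h _) t rfl

/-! ### renaming of variables -/

/-- Renaming of the variables. -/
def ren (ι : W → V) (t : Tm F ar W) : Tm F ar V := t.subst fun x => var (ι x)

theorem ren_code (ι : W → V) (num : F → ℕ) (vnum : V → ℕ) (t : Tm F ar W) :
    (ren ι t).code num vnum = t.code num fun x => vnum (ι x) := by
  induction t with
  | var y => rfl
  | app f ts ih =>
    simp only [ren, subst, Tm.code] at ih ⊢
    congr 3
    congr 1
    funext i
    exact ih _

theorem ren_occ [DecidableEq V] [DecidableEq W] {ι : W → V} (hι : Function.Injective ι) (x : W)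
    (t : Tm F ar W) : (ren ι t).occ (ι x) = t.occ x := by
  induction t with
  | var y => simp [ren, subst, Tm.occ, hι.eq_iff]
  | app f ts ih =>
    simp only [ren, subst, Tm.occ] at ih ⊢
    exact Finset.sum_congr rfl fun i _ => ih i

theorem ren_occ' [DecidableEq V] {ι : W → V} {y : V} (hy : ∀ x, ι x ≠ y)
    (t : Tm F ar W) : (ren ι t).occ y = 0 := by
  induction t with
  | var x => simp [ren, subst, Tm.occ, hy]
  | app f ts ih =>
    simp only [ren, subst, Tm.occ] at ih ⊢
    exact Finset.sum_eq_zero fun i _ => ih i

theorem ren_linear [DecidableEq V] [DecidableEq W] {ι : W → V} (hι : Function.Injective ι)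
    {t : Tm F ar W} (h : t.Linear) : (ren ι t).Linear := by
  intro y
  by_cases hy : ∃ x, ι x = y
  · obtain ⟨x, rfl⟩ := hy
    rw [ren_occ hι]
    exact h x
  · simp only [not_exists] at hy
    rw [ren_occ' hy]
    exact Nat.zero_le _

theorem ren_step {U : Type} {ι : W → V} (hι : Function.Injective ι) [Nonempty (Tm F ar U)]
    (l r : Tm F ar W) (t u : Tm F ar U) : Step (ren ι l) (ren ι r) t u ↔ Step l r t u := by
  constructor
  · intro h
    induction h with
    | root σ =>
      unfold ren
      rw [subst_subst, subst_subst]
      exact .root _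
    | arg f ts i u _ ih => exact .arg f ts i u ih
  · intro h
    induction h with
    | root τ =>
      let d : Tm F ar U := Classical.arbitrary _
      have h1 : ∀ s : Tm F ar W, s.subst τ =
          (ren ι s).subst (Function.extend ι τ fun _ => d) := by
        intro s
        unfold ren
        rw [subst_subst]
        congr 1
        funext x
        simp only [subst]
        rw [hι.extend_apply]
      rw [h1 l, h1 r]
      exact .root _
    | arg f ts i u _ ih => exact .arg f ts i u ih

theorem ren_ne_var {ι : W → V} {t : Tm F ar W} (h : ∀ x, t ≠ var x) (x : V) :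
    ren ι t ≠ var x := by
  cases t with
  | var y => exact absurd rfl (h y)
  | app f ts => simp [ren, subst]

end

/-! ### linearity of the one rule -/

section

variable {n : ℕ} {D : Type} {arD : D → ℕ} {U V : Type} [DecidableEq U]

attribute [local instance] Classical.propDecidable

theorem sum_le_one_at {m : ℕ} (f : Fin m → ℕ) (a B : ℕ) (h : ∀ j, j.val ≠ a → f j = 0)
    (hB : ∀ j, j.val = a → f j ≤ B) : ∑ j, f j ≤ B := by
  by_cases ha : a < m
  · rw [Finset.sum_eq_single (⟨a, ha⟩ : Fin m)]
    · exact hB _ rfl
    · intro j _ hj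
      exact h j fun h' => hj (Fin.ext h')
    · intro h'
      exact absurd (Finset.mem_univ _) h'
  · rw [Finset.sum_eq_zero]
    · exact Nat.zero_le _
    · intro j _
      exact h j fun h' => ha (by rw [← h']; exact j.2)

theorem occ_emb_rul (j0 j : Fin n) (u : U) (t : Tm D arD U) :
    (emb (fun u => var (.rul j u)) t : Tm (Sy D) (arS n arD) (PV n U)).occ (.rul j0 u) =
      if j = j0 then t.occ u else 0 := by
  induction t with
  | var v =>
    by_cases h : j = j0
    · subst h
      simp only [emb, Tm.occ, PV.rul.injEq, true_and, if_true]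
    · simp [emb, Tm.occ, h]
  | app d ts ih =>
    simp only [emb, Tm.occ]
    by_cases h : j = j0
    · subst h
      simp only [if_true] at ih ⊢
      exact Finset.sum_congr rfl fun i _ => ih i
    · simp only [h, if_false] at ih ⊢
      exact Finset.sum_eq_zero fun i _ => ih i

theorem occ_emb_wild (j : Fin n) (a b c : ℕ) (t : Tm D arD U) :
    (emb (fun u => var (.rul j u)) t : Tm (Sy D) (arS n arD) (PV n U)).occ (.wild a b c) = 0 := by
  induction t with
  | var v => simp [emb, Tm.occ]
  | app d ts ih =>
    simp only [emb, Tm.occ]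
    exact Finset.sum_eq_zero fun i _ => ih i

theorem occ_Wp_rul (i k : ℕ) (j0 : Fin n) (u : U) (t : Tm (Sy D) (arS n arD) (PV n U)) :
    (Wp i k t).occ (.rul j0 u) ≤ t.occ (.rul j0 u) := by
  induction k with
  | zero => exact le_rfl
  | succ k ih =>
    simp only [Wp, Tm.occ]
    refine sum_le_one_at (m := n) _ k _ (fun j hj => ?_) fun j hj => ?_
    · simp [hj, Tm.occ]
    · simpa [hj] using ih

theorem occ_Wp_wild (i k a b c : ℕ) (t : Tm (Sy D) (arS n arD) (PV n U))
    (ht : t.occ (.wild a b c) = 0) :
    (Wp i k t).occ (.wild a b c) ≤ if a = i ∧ b < k then 1 else 0 := by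
  induction k with
  | zero => simp [Wp, ht]
  | succ k ih =>
    simp only [Wp, Tm.occ]
    by_cases hb : b = k
    · have h1 : (Wp i k t).occ (.wild a b c) = 0 := by
        have h2 : ¬ (a = i ∧ b < k) := by omega
        rw [if_neg h2] at ih
        omega
      by_cases ha : a = i
      · rw [if_pos (by omega)]
        refine sum_le_one_at (m := n) _ c _ (fun j hj => ?_) fun j hj => ?_
        · split_ifs with h3
          · exact h1
          · simp only [Tm.occ, PV.wild.injEq]
            rw [if_neg]
            rintro ⟨_, _, h4⟩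
            exact hj h4
        · split_ifs with h3
          · rw [h1]; exact Nat.zero_le _
          · simp only [Tm.occ]
            split_ifs <;> omega
      · rw [if_neg (by omega)]
        refine sum_le_one_at (m := n) _ c _ (fun j hj => ?_) fun j hj => ?_
        · split_ifs with h3
          · exact h1
          · simp only [Tm.occ, PV.wild.injEq]
            rw [if_neg]
            rintro ⟨h4, _, _⟩
            exact ha h4.symm
        · split_ifs with h3
          · rw [h1]
          · simp only [Tm.occ, PV.wild.injEq]
            rw [if_neg]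
            rintro ⟨h4, _, _⟩
            exact ha h4.symm
    · have h5 : (if a = i ∧ b < k + 1 then 1 else 0) = if a = i ∧ b < k then 1 else 0 := by
        congr 1
        apply propext
        omega
      rw [h5]
      refine sum_le_one_at (m := n) _ k _ (fun j hj => ?_) fun j hj => ?_
      · simp only [hj, if_false, Tm.occ, PV.wild.injEq]
        rw [if_neg]
        rintro ⟨_, h4, _⟩
        exact hb h4.symm
      · simpa [hj] using ih

variable {l r : Fin n → Tm D arD U}

theorem occ_Dm (x : V) (j : Fin n) : ¬ Occ x (Dm l V j) := by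
  intro h
  unfold Dm at h
  have key : ∀ t : Tm (Sy D) (arS n arD) (PV n U), ¬ Occ x (t.subst fun _ =>
      (cst : Tm (Sy D) (arS n arD) V)) := by
    intro t
    induction t with
    | var y =>
      intro h
      unfold subst cst at h
      cases h with
      | app _ _ i h => exact Fin.elim0 i
    | app f ts ih =>
      intro h
      cases h with
      | app _ _ i h => exact ih i h
  exact key _ h

theorem occ_Nn (x : V) (k : ℕ) (t : Tm (Sy D) (arS n arD) V) :
    (Nn l k t).occ x ≤ t.occ x := by
  induction k with
  | zero => exact le_rfl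
  | succ k ih =>
    simp only [Nn, Tm.occ]
    refine sum_le_one_at (m := n) _ k _ (fun j hj => ?_) fun j hj => ?_
    · simp only [hj, if_false]
      rw [occ_eq_zero_iff]
      exact occ_Dm x j
    · simpa [hj] using ih

theorem linear_Lhs (hl : ∀ i, (l i).Linear) : (Lhs l).Linear := by
  intro x
  unfold Lhs
  simp only [Tm.occ]
  cases x with
  | rul j0 u =>
    refine sum_le_one_at (m := n) _ j0.val _ (fun j hj => ?_) fun j hj => ?_
    · have h1 := occ_Wp_rul (U := U) j.val j.val j0 u
        (emb (fun u => var (.rul j u)) (l j) : Tm (Sy D) (arS n arD) (PV n U))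
      rw [occ_emb_rul, if_neg (fun h => hj (by rw [h]))] at h1
      unfold Pt
      omega
    · have hj' : j = j0 := Fin.ext hj
      subst hj'
      have h1 := occ_Wp_rul (U := U) j.val j.val j u
        (emb (fun u => var (.rul j u)) (l j) : Tm (Sy D) (arS n arD) (PV n U))
      rw [occ_emb_rul, if_pos rfl] at h1
      exact h1.trans (hl j u)
  | wild a b c =>
    refine sum_le_one_at (m := n) _ a _ (fun j hj => ?_) fun j hj => ?_
    · have h1 := occ_Wp_wild (n := n) j.val j.val a b c _ (occ_emb_wild j a b c (l j))
      rw [if_neg (fun h => hj h.1.symm)] at h1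
      unfold Pt
      omega
    · have h1 := occ_Wp_wild (n := n) j.val j.val a b c _ (occ_emb_wild j a b c (l j))
      refine h1.trans ?_
      split_ifs <;> omega

theorem linear_Rhs (hr : ∀ i, (r i).Linear) : (Rhs l r).Linear := by
  intro x
  unfold Rhs
  simp only [Tm.occ]
  cases x with
  | rul j0 u =>
    refine sum_le_one_at (m := n) _ j0.val _ (fun j hj => ?_) fun j hj => ?_
    · have h1 := occ_Nn (l := l) (PV.rul j0 u) n
        (emb (fun u => var (.rul j u)) (r j) : Tm (Sy D) (arS n arD) (PV n U))
      rw [occ_emb_rul, if_neg (fun h => hj (by rw [h]))] at h1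
      omega
    · have hj' : j = j0 := Fin.ext hj
      subst hj'
      have h1 := occ_Nn (l := l) (PV.rul j u) n
        (emb (fun u => var (.rul j u)) (r j) : Tm (Sy D) (arS n arD) (PV n U))
      rw [occ_emb_rul, if_pos rfl] at h1
      exact h1.trans (hr j u)
  | wild a b c =>
    refine le_of_eq_of_le ?_ (Nat.zero_le 1)
    refine Finset.sum_eq_zero fun j _ => ?_
    have h1 := occ_Nn (l := l) (PV.wild a b c) n
      (emb (fun u => var (.rul j u)) (r j) : Tm (Sy D) (arS n arD) (PV n U))
    rw [occ_emb_wild] at h1
    omega

theorem rule_Lhs_Rhs (hg : Good l r) {x : PV n U} (h : Occ x (Rhs l r)) : Occ x (Lhs l) := by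
  unfold Rhs at h
  cases h with
  | app _ _ j h =>
    change Fin n at j
    have h1 : 0 < (Nn l n (emb (fun u => var (.rul j u)) (r j)) :
        Tm (Sy D) (arS n arD) (PV n U)).occ x := (occ_pos_iff _ _).2 h
    have h2 := (occ_pos_iff _ _).1 (h1.trans_le (occ_Nn (l := l) x n _))
    obtain ⟨u, h3, h4⟩ := occ_emb h2
    cases h4
    exact Occ.app (.f : Sy D) _ j (occ_Pt' (hg.vars j u h3))

end

end Pool.Agent.Helper73.LR
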